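import Pool.Agent.J6H60.MH.Spaces
import Pool.Agent.Y616.MH.Main

/-!
# Superposition of a solution with zero initial velocity and of a background flow

The two flows have disjoint spatial supports; between them the density is interpolated.
-/

set_option autoImplicit false

open scoped ContDiff ENNReal
open Set MeasureTheory Filter Topology Pool.Agent.H729R2 Pool.Agent.H729R2.MHD

namespace Pool.Agent.J6H60.MH

noncomputable section

/-- a solution with initial velocity zero, viscosity `μ`, and velocity supported in `K₀` -/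
structure Base (Ω : Set E3) (T μ : ℝ) (K₀ : Set X) (m M : ℝ) (r : E3 → ℝ) (f : Fin 3 → X → ℝ)
    (R : X → ℝ) (u : Fin 3 → X → ℝ) (x : Fin 3 → Fin 3 → X → ℝ) : Prop where
  rc : Continuous r
  Rc : Continuous R
  lo : ∀ z, m ≤ R z
  hi : ∀ z, R z ≤ M
  Rr : ∀ z ∈ Cyl Ω T, z.2 ∉ Prod.snd '' K₀ → R z = r z.2
  R0 : ∀ y, R (0, y) = r y
  uc : ∀ i, Continuous (u i)
  xc : ∀ i j, Continuous (x i j)
  uz : ∀ i z, z ∉ K₀ → u i z = 0
  xz : ∀ i j z, z ∉ K₀ → x i j z = 0
  cw : InCw Ω T (fun t y => vec fun i => u i (t, y))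
  l2 : InL2 (InV Ω) Ω T (fun t y => vec fun i => u i (t, y)) (fun t y i j => x i j (t, y))
  tr : Transport Ω T (fun t y => R (t, y)) (fun t y => vec fun i => u i (t, y))
  mo : ∀ ρ₀ : E3 → ℝ, Momentum Ω T (fun _ => μ) ρ₀ 0 (fun t y => vec fun i => f i (t, y))
    (fun t y => R (t, y)) (fun t y => vec fun i => u i (t, y)) (fun t y i j => x i j (t, y))
    0 (fun _ _ _ _ => 0)

/-- a cutoff function -/
structure Cut (K P : Set E3) (χ : E3 → ℝ) : Prop where
  c : Continuous χ
  one : ∀ x ∈ P, χ x = 1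
  zero : ∀ x ∈ K, χ x = 0
  nn : ∀ x, 0 ≤ χ x
  le : ∀ x, χ x ≤ 1

/-- interpolated densities -/
def Rh (χ : E3 → ℝ) (R q : X → ℝ) (z : X) : ℝ := χ z.2 * R z + (1 - χ z.2) * q z

/-- interpolated initial densities -/
def rh (χ : E3 → ℝ) (r : E3 → ℝ) (q : X → ℝ) (x : E3) : ℝ := χ x * r x + (1 - χ x) * q (0, x)

section

variable {Ω K : Set E3} {T μ m M : ℝ} {K₀ : Set X} {r χ : E3 → ℝ} {f : Fin 3 → X → ℝ}
  {R q : X → ℝ} {u : Fin 3 → X → ℝ} {x : Fin 3 → Fin 3 → X → ℝ} {w : Fin 3 → X → ℝ}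

lemma conv_b {a b c : ℝ} (ha : 0 ≤ a) (ha1 : a ≤ 1) (hb : m ≤ b ∧ b ≤ M) (hc : m ≤ c ∧ c ≤ M) :
    m ≤ a * b + (1 - a) * c ∧ a * b + (1 - a) * c ≤ M := by
  obtain ⟨h1, h2⟩ := hb
  obtain ⟨h3, h4⟩ := hc
  constructor <;> nlinarith

lemma Rh_c (hχ : Cut K (Prod.snd '' K₀) χ) (hR : Continuous R) (hq : Continuous q) :
    Continuous (Rh χ R q) := by
  unfold Rh
  exact ((hχ.c.comp continuous_snd).mul hR).add
    ((continuous_const.sub (hχ.c.comp continuous_snd)).mul hq)

lemma rh_c (hχ : Cut K (Prod.snd '' K₀) χ) (hr : Continuous r) (hq : Continuous q) :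
    Continuous (rh χ r q) := by
  unfold rh
  exact (hχ.c.mul hr).add ((continuous_const.sub hχ.c).mul (slice_cont hq 0))

lemma disj (hχ : Cut K (Prod.snd '' K₀) χ) {y : E3} (h : y ∈ Prod.snd '' K₀) : y ∉ K := fun h' => by
  have h1 := hχ.one y h
  rw [hχ.zero y h'] at h1
  exact zero_ne_one h1

lemma split_int (hΩ : IsOpen Ω) {F F₁ F₂ : X → ℝ} (hF : ∀ z ∈ Cyl Ω T, F z = F₁ z + F₂ z)
    (h1 : Integrable F₁ (volume.restrict (Cyl Ω T))) (h2 : Integrable F₂ (volume : Measure X))
    (hz : ∀ z, z.2 ∉ Ω → F₂ z = 0) :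
    ∫ z in Cyl Ω T, F z = (∫ z in Cyl Ω T, F₁ z) + ∫ z in Cy T, F₂ z := by
  rw [setIntegral_congr_fun (cyl_meas hΩ T) hF, integral_add h1 h2.restrict, cyl_to_cy hz]

theorem transport_glue (hΩ : IsOpen Ω) (hT : 0 < T) (hw : Bg K w) (hq : BgD K w q m M)
    (hχ : Cut K (Prod.snd '' K₀) χ) (B : Base Ω T μ K₀ m M r f R u x) :
    Transport Ω T (fun t y => Rh χ R q (t, y)) (fun t y => vec fun i => u i (t, y) + w i (t, y))
      := by
  intro ψ hψ hc hsub
  set G : E3 → ℝ := fun y => χ y * q (0, y) + (1 - χ y) * r y with hG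
  have hGc : Continuous G :=
    (hχ.c.mul (slice_cont hq.s.continuous 0)).add ((continuous_const.sub hχ.c).mul B.rc)
  have hDc : ∀ v, Continuous (D v ψ) := fun v => (D_smooth hψ v).continuous
  set F₁ : X → ℝ := fun z => R (z.1, z.2) *
    (dt ψ z + ∑ j, (vec fun i => u i (z.1, z.2)) j * dx j ψ z) with hF₁
  set F₂ : X → ℝ := fun z => G z.2 * D et ψ z with hF₂
  set F₃ : X → ℝ := fun z => q z * (D et ψ z + ∑ j, w j z * D (ev j) ψ z) with hF₃
  have hD0 : ∀ v z, z ∉ tsupport ψ → D v ψ z = 0 := fun v z hz => D_eq_zero_of_notMem v hz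
  have i1 : Integrable F₁ (volume : Measure X) := by
    have hcont : Continuous F₁ := by
      refine B.Rc.mul ((hDc et).add (continuous_finsetSum _ fun j _ => (B.uc j).mul (hDc (ev j))))
    refine hcont.integrable_of_hasCompactSupport (HasCompactSupport.intro hc fun z hz => ?_)
    have e1 : dt ψ z = 0 := D_eq_zero_of_notMem et hz
    have e2 : ∀ j, dx j ψ z = 0 := fun j => D_eq_zero_of_notMem (ev j) hz
    simp [hF₁, e1, e2]
  have i2 : Integrable F₂ (volume : Measure X) :=
    ((hGc.comp continuous_snd).mul (hDc et)).integrable_of_hasCompactSupport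
      (D_hcs hc et).mul_left
  have i3 : Integrable F₃ (volume : Measure X) := by
    have hcont : Continuous F₃ := hq.s.continuous.mul ((hDc et).add
      (continuous_finsetSum _ fun j _ => (hw.s j).continuous.mul (hDc (ev j))))
    refine hcont.integrable_of_hasCompactSupport (HasCompactSupport.intro hc fun z hz => ?_)
    simp [hF₃, hD0 _ z hz]
  have key : ∀ z ∈ Cyl Ω T, Rh χ R q (z.1, z.2) *
      (dt ψ z + ∑ j, (vec fun i => u i (z.1, z.2) + w i (z.1, z.2)) j * dx j ψ z)
      = F₁ z + (F₃ z - F₂ z) := by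
    intro z hz
    simp only [hF₁, hF₂, hF₃, vec_apply]
    have edt : dt ψ z = D et ψ z := rfl
    have edx : ∀ j, dx j ψ z = D (ev j) ψ z := fun j => rfl
    simp only [edt, edx]
    change Rh χ R q z * (D et ψ z + ∑ j, (u j z + w j z) * D (ev j) ψ z) =
      R z * (D et ψ z + ∑ j, u j z * D (ev j) ψ z) +
        (q z * (D et ψ z + ∑ j, w j z * D (ev j) ψ z) - G z.2 * D et ψ z)
    by_cases hP : z.2 ∈ Prod.snd '' K₀
    · have hnK := disj hχ hP
      have e1 : ∀ j, w j z = 0 := fun j => hw.zero j hnK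
      have e2 : Rh χ R q z = R z := by unfold Rh; rw [hχ.one _ hP]; ring
      have e3 : G z.2 = q z := by
        simp only [hG]
        rw [hχ.one _ hP, hq.st z hnK]
        ring
      simp [e1, e2, e3]
    · have hnK : z ∉ K₀ := fun h' => hP ⟨z, h', rfl⟩
      have e1 : ∀ j, u j z = 0 := fun j => B.uz j z hnK
      have e2 := B.Rr z hz hP
      simp only [e1, zero_add, zero_mul, Finset.sum_const_zero, add_zero]
      by_cases hk : z.2 ∈ K
      · simp only [hG]
        unfold Rh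
        rw [hχ.zero _ hk, e2]
        ring
      · have e3 : ∀ j, w j z = 0 := fun j => hw.zero j hk
        simp only [e3, zero_mul, Finset.sum_const_zero, add_zero, hG]
        unfold Rh
        rw [e2, hq.st z hk]
        ring
  have h23 : ∀ z : X, z.2 ∉ Ω → F₃ z - F₂ z = 0 := by
    intro z hz
    have : ∀ v, D v ψ z = 0 := fun v => D_eq_zero_of_notMem v fun h' => hz (hsub h').2
    simp [hF₂, hF₃, this]
  rw [split_int hΩ key i1.restrict (i3.sub i2) h23]
  have t1 : ∫ z in Cyl Ω T, F₁ z = 0 := B.tr ψ hψ hc hsub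
  have hT0 : ∀ y, ψ (T, y) = 0 := fun y => image_eq_zero_of_notMem_tsupport fun h' =>
    lt_irrefl T (hsub h').1.2
  have h00 : ∀ y, ψ (0, y) = 0 := fun y => image_eq_zero_of_notMem_tsupport fun h' =>
    lt_irrefl (0:ℝ) (hsub h').1.1
  have t2 : ∫ z in Cy T, F₂ z = 0 := by
    rw [int_time hT hGc hψ hc hT0]
    simp [h00]
  have t3 : ∫ z in Cy T, F₃ z = 0 := hw.transport hq hT hψ hc h00 hT0
  rw [t1, integral_sub i3.restrict i2.restrict, t2, t3]
  simp

theorem momentum_glue (hΩ : IsOpen Ω) (hT : 0 < T) (hKΩ : K ⊆ Ω) (hw : Bg K w)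
    (hq : BgD K w q m M) (hχ : Cut K (Prod.snd '' K₀) χ)
    (fm : ∀ i, MemLp (f i) 2 (volume : Measure X)) (fz : ∀ i z, z ∉ K₀ → f i z = 0)
    (B : Base Ω T μ K₀ m M r f R u x) :
    Momentum Ω T (fun _ => μ) (fun y => rh χ r q y) (fun y => vec fun i => w i (0, y))
      (fun t y => vec fun i => f i (t, y) + Fw μ w q i (t, y)) (fun t y => Rh χ R q (t, y))
      (fun t y => vec fun i => u i (t, y) + w i (t, y))
      (fun t y i j => x i j (t, y) + D (ev j) (w i) (t, y)) 0 (fun _ _ _ _ => 0) := by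
  intro φ hφ hdiv
  have hs := test_smooth hφ
  have hc := test_hcs hφ
  have hφc : ∀ i, Continuous fun y => φ y i := fun i => (hs i).continuous
  have hDc : ∀ i v, Continuous (D v (fun y => φ y i)) := fun i v => (D_smooth (hs i) v).continuous
  have hDh : ∀ i v, HasCompactSupport (D v (fun y => φ y i)) := fun i v => D_hcs (hc i) v
  have hφT : ∀ i y, φ (T, y) i = 0 := fun i y => by
    have : φ (T, y) = 0 := image_eq_zero_of_notMem_tsupport fun h' => lt_irrefl T (hφ.2.2 h').1
    rw [this]; rfl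
  have hqp := hq.pos
  have hm := B.mo (fun y => rh χ r q y) φ hφ hdiv
  have hmw := hw.mom (μ := μ) hq.s hT (φ := fun i y => φ y i) hs hc hφT
  -- the alternative
  have alt : ∀ z : X, ((∀ i, w i z = 0) ∧ (∀ i, Hw μ w q i z = 0) ∧
      Rh χ R q z = R z) ∨ ((∀ i, u i z = 0) ∧ (∀ i, f i z = 0) ∧
      (Rh χ R q z = q z ∨ ((∀ i, w i z = 0) ∧ ∀ i, Hw μ w q i z = 0))) := by
    intro z
    by_cases hP : z.2 ∈ Prod.snd '' K₀
    · have hnK := disj hχ hP
      exact Or.inl ⟨fun i => hw.zero i hnK, fun i => hw.Hz i hnK,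
        by unfold Rh; rw [hχ.one _ hP]; ring⟩
    · have hnK : z ∉ K₀ := fun h' => hP ⟨z, h', rfl⟩
      refine Or.inr ⟨fun i => B.uz i z hnK, fun i => fz i z hnK, ?_⟩
      by_cases hk : z.2 ∈ K
      · left; unfold Rh; rw [hχ.zero _ hk]; ring
      · exact Or.inr ⟨fun i => hw.zero i hk, fun i => hw.Hz i hk⟩
  have hcc : ∀ {F : X → ℝ}, Continuous F → (∀ z, z ∉ tsupport φ → F z = 0) →
      Integrable F (volume : Measure X) := fun hF hz =>
    hF.integrable_of_hasCompactSupport (HasCompactSupport.intro hφ.2.1 hz)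
  have hD0 : ∀ (i : Fin 3) (v : X) (z : X), z ∉ tsupport φ → D v (fun y => φ y i) z = 0 := by
    intro i v z hz
    have hsub : (Function.support fun y => φ y i) ⊆ Function.support φ := fun y hy h0 => hy (by
      change φ y i = 0
      rw [h0]; rfl)
    exact D_eq_zero_of_notMem v fun h' => hz (closure_mono hsub h')
  have hφ0 : ∀ (i : Fin 3) (z : X), z ∉ tsupport φ → φ z i = 0 := fun i z hz => by
    rw [image_eq_zero_of_notMem_tsupport hz]; rfl
  have edt : ∀ (i : Fin 3) z, dt (fun y => φ y i) z = D et (fun y => φ y i) z := fun i z => rfl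
  have edx : ∀ (i j : Fin 3) z, dx j (fun y => φ y i) z = D (ev j) (fun y => φ y i) z :=
    fun i j z => rfl
  have hwo : ∀ i (z : X), z.2 ∉ Ω → w i z = 0 := fun i z hz => hw.zero i fun h' => hz (hKΩ h')
  -- time derivative
  have T1 : ∫ z in Cyl Ω T, Rh χ R q (z.1, z.2) *
        ∑ i, (vec fun i => u i (z.1, z.2) + w i (z.1, z.2)) i * dt (fun y => φ y i) z
      = (∫ z in Cyl Ω T, R (z.1, z.2) *
          ∑ i, (vec fun i => u i (z.1, z.2)) i * dt (fun y => φ y i) z) +
        ∫ z in Cy T, ∑ i, q z * w i z * D et (fun y => φ y i) z := by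
    refine split_int hΩ (fun z _ => ?_) ?_ ?_ fun z hz => ?_
    · simp only [vec_apply, edt]
      change Rh χ R q z * ∑ i, (u i z + w i z) * D et (fun y => φ y i) z =
        R z * ∑ i, u i z * D et (fun y => φ y i) z + ∑ i, q z * w i z * D et (fun y => φ y i) z
      rcases alt z with ⟨a1, -, a4⟩ | ⟨a1, -, a4 | ⟨a4, -⟩⟩
      · simp [a1, a4]
      · simp [a1, a4, Finset.mul_sum, mul_assoc]
      · simp [a1, a4]
    · simp only [vec_apply, edt]
      refine (hcc (F := fun z => R z * ∑ i, u i z * D et (fun y => φ y i) z) ?_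
        fun z hz => ?_).restrict
      · exact B.Rc.mul (continuous_finsetSum _ fun i _ => (B.uc i).mul (hDc i et))
      · simp [hD0 _ et z hz]
    · exact integrable_finsetSum _ fun i _ =>
        int_cc ((hq.s.mul (hw.s i)).mul (D_smooth (hs i) _)) (hDh i _).mul_left
    · simp [hwo _ z hz]
  -- convection
  have T3 : ∫ z in Cyl Ω T, Rh χ R q (z.1, z.2) *
        ∑ i, ∑ j, (vec fun i => u i (z.1, z.2) + w i (z.1, z.2)) i *
          (vec fun i => u i (z.1, z.2) + w i (z.1, z.2)) j * dx j (fun y => φ y i) z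
      = (∫ z in Cyl Ω T, R (z.1, z.2) * ∑ i, ∑ j, (vec fun i => u i (z.1, z.2)) i *
          (vec fun i => u i (z.1, z.2)) j * dx j (fun y => φ y i) z) +
        ∫ z in Cy T, ∑ i, ∑ j, q z * (w i z * w j z) * D (ev j) (fun y => φ y i) z := by
    refine split_int hΩ (fun z _ => ?_) ?_ ?_ fun z hz => ?_
    · simp only [vec_apply, edx]
      change Rh χ R q z * ∑ i, ∑ j, (u i z + w i z) * (u j z + w j z) *
          D (ev j) (fun y => φ y i) z =
        R z * ∑ i, ∑ j, u i z * u j z * D (ev j) (fun y => φ y i) z +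
          ∑ i, ∑ j, q z * (w i z * w j z) * D (ev j) (fun y => φ y i) z
      rcases alt z with ⟨a1, -, a4⟩ | ⟨a1, -, a4 | ⟨a4, -⟩⟩
      · simp [a1, a4]
      · simp [a1, a4, Finset.mul_sum, mul_assoc]
      · simp [a1, a4]
    · simp only [vec_apply, edx]
      refine (hcc (F := fun z => R z * ∑ i, ∑ j, u i z * u j z *
        D (ev j) (fun y => φ y i) z) ?_ fun z hz => ?_).restrict
      · exact B.Rc.mul (continuous_finsetSum _ fun i _ => continuous_finsetSum _ fun j _ =>
          ((B.uc i).mul (B.uc j)).mul (hDc i _))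
      · simp [hD0 _ _ z hz]
    · exact integrable_finsetSum _ fun i _ => integrable_finsetSum _ fun j _ =>
        int_cc ((hq.s.mul ((hw.s i).mul (hw.s j))).mul (D_smooth (hs i) _)) (hDh i _).mul_left
    · simp [hwo _ z hz]
  -- viscosity
  have T4 : ∫ z in Cyl Ω T, μ * ∑ i, ∑ j, ((x i j (z.1, z.2) + D (ev j) (w i) (z.1, z.2)) +
        (x j i (z.1, z.2) + D (ev i) (w j) (z.1, z.2))) * dx j (fun y => φ y i) z
      = (∫ z in Cyl Ω T, μ * ∑ i, ∑ j, (x i j (z.1, z.2) + x j i (z.1, z.2)) *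
          dx j (fun y => φ y i) z) +
        ∫ z in Cy T, ∑ i, ∑ j, Sw μ w i j z * D (ev j) (fun y => φ y i) z := by
    refine split_int hΩ (fun z _ => ?_) ?_ ?_ fun z hz => ?_
    · simp only [edx]
      rw [Finset.mul_sum, Finset.mul_sum, ← Finset.sum_add_distrib]
      refine Finset.sum_congr rfl fun i _ => ?_
      rw [Finset.mul_sum, Finset.mul_sum, ← Finset.sum_add_distrib]
      refine Finset.sum_congr rfl fun j _ => ?_
      unfold Sw
      change μ * (((x i j z + D (ev j) (w i) z) + (x j i z + D (ev i) (w j) z)) *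
        D (ev j) (fun y => φ y i) z) = μ * ((x i j z + x j i z) * D (ev j) (fun y => φ y i) z) +
        μ * (D (ev j) (w i) z + D (ev i) (w j) z) * D (ev j) (fun y => φ y i) z
      ring
    · simp only [edx]
      refine (hcc (F := fun z => μ * ∑ i, ∑ j, (x i j z + x j i z) *
        D (ev j) (fun y => φ y i) z) ?_ fun z hz => ?_).restrict
      · exact continuous_const.mul (continuous_finsetSum _ fun i _ => continuous_finsetSum _
          fun j _ => ((B.xc i j).add (B.xc j i)).mul (hDc i _))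
      · simp [hD0 _ _ z hz]
    · exact integrable_finsetSum _ fun i _ => integrable_finsetSum _ fun j _ =>
        int_cc ((hw.Ss i j).mul (D_smooth (hs i) _)) (hDh i _).mul_left
    · have h1 : ∀ v i, D v (w i) z = 0 := fun v i => hw.Dzero v i fun h' => hz (hKΩ h')
      simp [Sw, h1]
  -- force
  have hF : ∀ i z, q z * Fw μ w q i z = Hw μ w q i z := fun i z => by
    unfold Fw
    rw [mul_div_assoc', mul_div_cancel_left₀ _ (hqp z).ne']
  have hF0 : ∀ i z, Hw μ w q i z = 0 → Fw μ w q i z = 0 := fun i z h => by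
    unfold Fw
    rw [h, zero_div]
  have T5 : ∫ z in Cyl Ω T, Rh χ R q (z.1, z.2) *
        ∑ i, (vec fun i => f i (z.1, z.2) + Fw μ w q i (z.1, z.2)) i * φ z i
      = (∫ z in Cyl Ω T, R (z.1, z.2) * ∑ i, (vec fun i => f i (z.1, z.2)) i * φ z i) +
        ∫ z in Cy T, ∑ i, Hw μ w q i z * φ z i := by
    refine split_int hΩ (fun z _ => ?_) ?_ ?_ fun z hz => ?_
    · simp only [vec_apply]
      change Rh χ R q z * ∑ i, (f i z + Fw μ w q i z) * φ z i =
        R z * ∑ i, f i z * φ z i + ∑ i, Hw μ w q i z * φ z i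
      rcases alt z with ⟨-, a3, a4⟩ | ⟨-, a3, a4 | ⟨-, a4⟩⟩
      · have a5 : ∀ i, Fw μ w q i z = 0 := fun i => hF0 i z (a3 i)
        simp [a3, a4, a5]
      · simp [a3, a4, Finset.mul_sum, ← hF, mul_assoc]
      · have a5 : ∀ i, Fw μ w q i z = 0 := fun i => hF0 i z (a4 i)
        simp [a3, a4, a5]
    · simp only [vec_apply]
      have e1 : (fun z : X => R (z.1, z.2) * ∑ i, f i (z.1, z.2) * φ z i) =
          fun z => ∑ i, (R z * φ z i) * f i z := by
        funext z
        rw [Finset.mul_sum]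
        refine Finset.sum_congr rfl fun i _ => ?_
        change R z * (f i z * φ z i) = _
        ring
      rw [e1]
      refine (integrable_finsetSum _ fun i _ => ?_).restrict
      exact (memLp_cc (B.Rc.mul (hφc i)) (hc i).mul_left).integrable_mul (fm i)
    · exact integrable_finsetSum _ fun i _ => int_cc ((hw.Hs hq.s i).mul (hs i)) (hc i).mul_left
    · have h1 : ∀ i, Hw μ w q i z = 0 := fun i => hw.Hz i fun h' => hz (hKΩ h')
      simp [h1]
  -- initial term
  have T0 : ∫ y in Ω, rh χ r q y * ∑ i, (vec fun i => w i (0, y)) i * φ (0, y) i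
      = ∫ y : E3, ∑ i, q (0, y) * w i (0, y) * φ (0, y) i := by
    rw [setIntegral_eq_integral_of_forall_compl_eq_zero fun y hy => by
      simp [hwo _ (0, y) hy]]
    refine integral_congr_ae (Eventually.of_forall fun y => ?_)
    simp only [vec_apply]
    by_cases hk : y ∈ K
    · have : rh χ r q y = q (0, y) := by unfold rh; rw [hχ.zero _ hk]; ring
      rw [this, Finset.mul_sum]
      exact Finset.sum_congr rfl fun i _ => by ring
    · have h1 : ∀ i, w i (0, y) = 0 := fun i => hw.zero i hk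
      simp [h1]
  have T00 : ∫ y in Ω, rh χ r q y * ∑ i, (0 : E3 → E3) y i * φ (0, y) i = 0 := by simp
  have e1 : ∫ z in Cyl Ω T, ∑ i, crossProduct (curl (fun _ _ => (0:ℝ)))
      ((0 : ℝ → E3 → E3) z.1 z.2).ofLp i * φ z i = 0 := by
    simp [curl_zero]
  rw [T00, e1] at hm
  rw [e1, T1, T3, T4, T5, T0]
  linarith

theorem Base.weakSol (hΩ : IsOpen Ω) (hbd : Bornology.IsBounded Ω) (hT : 0 < T)
    (hKΩ : K ⊆ Ω) (hw : Bg K w) (hq : BgD K w q m M)
    (hχ : Cut K (Prod.snd '' K₀) χ)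
    (fm : ∀ i, MemLp (f i) 2 (volume : Measure X)) (fz : ∀ i z, z ∉ K₀ → f i z = 0)
    (B : Base Ω T μ K₀ m M r f R u x) (σ : ℝ → ℝ) :
    WeakSol Ω T (fun _ => μ) σ (rh χ r q) (fun y => vec fun i => w i (0, y)) 0
      (fun t y => vec fun i => f i (t, y) + Fw μ w q i (t, y)) (fun t y => Rh χ R q (t, y))
      (fun t y => vec fun i => u i (t, y) + w i (t, y)) 0 := by
  have hRc : Continuous fun z => Rh χ R q z := Rh_c hχ B.Rc hq.s.continuous
  have hsum : (fun (t : ℝ) (y : E3) => vec fun i => u i (t, y) + w i (t, y)) =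
      fun t y => (vec fun i => u i (t, y)) + vec fun i => w i (t, y) := by
    funext t y
    ext i
    simp
  have hv : InCw Ω T (fun t y => vec fun i => u i (t, y) + w i (t, y)) := by
    rw [hsum]
    exact InCw.add hΩ hbd B.cw (hw.inCw hbd hKΩ)
  have hv2 : InL2 (InV Ω) Ω T (fun t y => vec fun i => u i (t, y) + w i (t, y))
      (fun t y i j => x i j (t, y) + D (ev j) (w i) (t, y)) := by
    rw [hsum]
    exact InL2V.add hΩ hbd B.l2 (hw.inL2V hbd hKΩ)
  refine ⟨dens_of_cont hΩ hbd hRc (C := M) fun t y => ?_, hv, zero_inCw Ω T,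
    Eventually.of_forall fun y => ?_, transport_glue hΩ hT hw hq hχ B,
    fun t y i j => x i j (t, y) + D (ev j) (w i) (t, y), fun _ _ _ _ => 0, hv2,
    zero_inL2W Ω T, momentum_glue hΩ hT hKΩ hw hq hχ fm fz B,
    zero_induction Ω T σ _ _⟩
  · have := conv_b (hχ.nn y) (hχ.le y) ⟨B.lo (t, y), B.hi (t, y)⟩ ⟨hq.lo (t, y), hq.hi (t, y)⟩
    exact ⟨hq.m0.le.trans this.1, this.2⟩
  · unfold Rh rh
    rw [B.R0 y]

end

end

end Pool.Agent.J6H60.MH
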