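import Pool.Agent.H729R2.Fin4

/-!
# Integration by parts on `(0,T) × ℝ³` and smooth background flows
-/

set_option autoImplicit false

open scoped ContDiff ENNReal
open Set MeasureTheory Filter Topology Pool.Agent.H729R2 Pool.Agent.H729R2.MHD

namespace Pool.Agent.J6H60.MH

noncomputable section

/-- the cylinder `(0,T) × ℝ³` -/
abbrev Cy (T : ℝ) : Set X := Ioo 0 T ×ˢ (univ : Set E3)

lemma cy_meas (T : ℝ) : MeasurableSet (Cy T) := measurableSet_Ioo.prod MeasurableSet.univ

lemma cyl_to_cy {Ω : Set E3} {T : ℝ} {F : X → ℝ} (hF : ∀ z, z.2 ∉ Ω → F z = 0) :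
    ∫ z in Cyl Ω T, F z = ∫ z in Cy T, F z := by
  refine (setIntegral_eq_of_subset_of_forall_sdiff_eq_zero (cy_meas T)
    (fun z hz => ⟨hz.1, mem_univ _⟩) fun z hz => ?_).symm
  refine hF z fun h => hz.2 ⟨hz.1.1, h⟩

lemma slice_hcs {F : X → ℝ} (hc : HasCompactSupport F) (t : ℝ) :
    HasCompactSupport fun x : E3 => F (t, x) := by
  have h1 : IsCompact (Prod.snd '' tsupport F) := IsCompact.image hc continuous_snd
  refine HasCompactSupport.intro h1 fun x hx => ?_
  exact image_eq_zero_of_notMem_tsupport fun h' => hx ⟨(t, x), h', rfl⟩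

/-- the fundamental theorem in time -/
lemma int_time {T : ℝ} (hT : 0 < T) {G : E3 → ℝ} (hG : Continuous G) {P : X → ℝ}
    (hP : ContDiff ℝ ∞ P) (hc : HasCompactSupport P) (hPT : ∀ x, P (T, x) = 0) :
    ∫ z in Cy T, G z.2 * D et P z = - ∫ x, G x * P (0, x) := by
  have hcont : Continuous fun z : X => G z.2 * D et P z :=
    (hG.comp continuous_snd).mul (D_smooth hP et).continuous
  have hint : Integrable (fun z : X => G z.2 * D et P z) (volume : Measure X) :=
    hcont.integrable_of_hasCompactSupport (D_hcs hc et).mul_left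
  have h1 : ∫ z in Cy T, G z.2 * D et P z =
      ∫ x : E3, ∫ t in Ioo 0 T, G x * D et P (t, x) := by
    have e1 : (volume : Measure X).restrict (Cy T) =
        ((volume : Measure ℝ).restrict (Ioo 0 T)).prod (volume : Measure E3) := by
      rw [Measure.volume_eq_prod, ← Measure.prod_restrict, Measure.restrict_univ]
    rw [e1, integral_prod_symm]
    rw [← e1]
    exact hint.restrict
  rw [h1, ← integral_neg]
  refine integral_congr_ae (Eventually.of_forall fun x => ?_)
  beta_reduce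
  have h2 : ∀ t : ℝ, HasDerivAt (fun t => P (t, x)) (D et P (t, x)) t := by
    intro t
    have h3 : HasFDerivAt P (fderiv ℝ P (t, x)) (t, x) := (smooth_diff hP _).hasFDerivAt
    have h4 : HasDerivAt (fun t : ℝ => ((t, x) : X)) (1, 0) t :=
      (hasDerivAt_id t).prodMk (hasDerivAt_const t x)
    exact h3.comp_hasDerivAt t h4
  have h5 : Continuous fun t : ℝ => D et P (t, x) :=
    (D_smooth hP et).continuous.comp (continuous_id.prodMk continuous_const)
  rw [integral_const_mul, ← integral_Ioc_eq_integral_Ioo, ← intervalIntegral.integral_of_le hT.le,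
    intervalIntegral.integral_eq_sub_of_hasDerivAt (fun t _ => h2 t)
      (h5.intervalIntegrable _ _), hPT x]
  ring

/-- the divergence theorem in space -/
lemma int_space {T : ℝ} {Q : X → ℝ} (hQ : ContDiff ℝ ∞ Q) (hc : HasCompactSupport Q)
    (j : Fin 3) : ∫ z in Cy T, D (ev j) Q z = 0 := by
  have hint : Integrable (D (ev j) Q) (volume : Measure X) :=
    int_cc (D_smooth hQ _) (D_hcs hc _)
  have h1 : ∫ z in Cy T, D (ev j) Q z = ∫ t in Ioo 0 T, ∫ x : E3, D (ev j) Q (t, x) := by
    have e1 : (volume : Measure X).restrict (Cy T) =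
        ((volume : Measure ℝ).restrict (Ioo 0 T)).prod (volume : Measure E3) := by
      rw [Measure.volume_eq_prod, ← Measure.prod_restrict, Measure.restrict_univ]
    rw [e1, integral_prod]
    rw [← e1]
    exact hint.restrict
  rw [h1]
  have h2 : ∀ t : ℝ, ∫ x : E3, D (ev j) Q (t, x) = 0 := by
    intro t
    have h3 := ibp3 (F := fun _ => (1:ℝ)) contDiff_const (slice_smooth hQ t)
      (Or.inr (slice_hcs hc t)) j
    simp only [one_mul, pdx_slice hQ] at h3
    rw [h3]
    have h4 : ∀ x, pdx j (fun _ : E3 => (1:ℝ)) x = 0 := fun x => by simp [pdx]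
    simp [h4]
  simp [h2]

variable {T : ℝ} {f g : X → ℝ}

lemma ibpS (hf : ContDiff ℝ ∞ f) (hg : ContDiff ℝ ∞ g) (hc : HasCompactSupport g) (j : Fin 3) :
    ∫ z in Cy T, f z * D (ev j) g z = - ∫ z in Cy T, D (ev j) f z * g z := by
  have h1 := int_space (T := T) (hf.mul hg) hc.mul_left j
  rw [D_mul hf hg] at h1
  have i1 : Integrable (fun z => D (ev j) f z * g z) (volume : Measure X) :=
    int_cc ((D_smooth hf _).mul hg) hc.mul_left
  have i2 : Integrable (fun z => f z * D (ev j) g z) (volume : Measure X) :=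
    int_cc (hf.mul (D_smooth hg _)) (D_hcs hc _).mul_left
  rw [integral_add i1.restrict i2.restrict] at h1
  linarith

lemma ibpT (hT : 0 < T) (hf : ContDiff ℝ ∞ f) (hg : ContDiff ℝ ∞ g) (hc : HasCompactSupport g)
    (h0 : ∀ x, g (T, x) = 0) :
    ∫ z in Cy T, f z * D et g z =
      - (∫ z in Cy T, D et f z * g z) - ∫ x, f (0, x) * g (0, x) := by
  have h1 := int_time hT (G := fun _ => 1) continuous_const (hf.mul hg) hc.mul_left
    (fun x => by rw [h0, mul_zero])
  simp only [one_mul] at h1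
  rw [D_mul hf hg] at h1
  have i1 : Integrable (fun z => D et f z * g z) (volume : Measure X) :=
    int_cc ((D_smooth hf _).mul hg) hc.mul_left
  have i2 : Integrable (fun z => f z * D et g z) (volume : Measure X) :=
    int_cc (hf.mul (D_smooth hg _)) (D_hcs hc _).mul_left
  rw [integral_add i1.restrict i2.restrict] at h1
  linarith

/-- the general momentum identity for smooth densities of momentum and fluxes -/
lemma mom_gen (hT : 0 < T) {a : Fin 3 → X → ℝ} {b c : Fin 3 → Fin 3 → X → ℝ}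
    (ha : ∀ i, ContDiff ℝ ∞ (a i)) (hb : ∀ i j, ContDiff ℝ ∞ (b i j))
    (hc' : ∀ i j, ContDiff ℝ ∞ (c i j)) {φ : Fin 3 → X → ℝ} (hs : ∀ i, ContDiff ℝ ∞ (φ i))
    (hc : ∀ i, HasCompactSupport (φ i)) (h0 : ∀ i x, φ i (T, x) = 0) :
    - (∫ z in Cy T, ∑ i, a i z * D et (φ i) z) - (∫ x, ∑ i, a i (0, x) * φ i (0, x))
    - (∫ z in Cy T, ∑ i, ∑ j, b i j z * D (ev j) (φ i) z)
    + (∫ z in Cy T, ∑ i, ∑ j, c i j z * D (ev j) (φ i) z)
    = ∫ z in Cy T, ∑ i, (D et (a i) z + ∑ j, D (ev j) (b i j) z - ∑ j, D (ev j) (c i j) z) *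
        φ i z := by
  have hI : ∀ {a b : X → ℝ}, ContDiff ℝ ∞ a → ContDiff ℝ ∞ b → HasCompactSupport b →
      Integrable (fun z => a z * b z) ((volume : Measure X).restrict (Cy T)) := fun ha hb hcb =>
    (int_cc (ha.mul hb) hcb.mul_left).restrict
  have i1 : ∀ i, Integrable (fun z => a i z * D et (φ i) z) ((volume : Measure X).restrict (Cy T)) :=
    fun i => hI (ha i) (D_smooth (hs i) _) (D_hcs (hc i) _)
  have i0 : ∀ i, Integrable (fun x : E3 => a i (0, x) * φ i (0, x)) := fun i =>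
    ((slice_cont (ha i).continuous 0).mul
      (slice_cont (hs i).continuous 0)).integrable_of_hasCompactSupport
      (slice_hcs (hc i) 0).mul_left
  have i2 : ∀ i j, Integrable (fun z => b i j z * D (ev j) (φ i) z)
      ((volume : Measure X).restrict (Cy T)) := fun i j =>
    hI (hb i j) (D_smooth (hs i) _) (D_hcs (hc i) _)
  have i3 : ∀ i j, Integrable (fun z => c i j z * D (ev j) (φ i) z)
      ((volume : Measure X).restrict (Cy T)) := fun i j =>
    hI (hc' i j) (D_smooth (hs i) _) (D_hcs (hc i) _)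
  have j1 : ∀ i, Integrable (fun z => D et (a i) z * φ i z)
      ((volume : Measure X).restrict (Cy T)) := fun i => hI (D_smooth (ha i) _) (hs i) (hc i)
  have j2 : ∀ i j, Integrable (fun z => D (ev j) (b i j) z * φ i z)
      ((volume : Measure X).restrict (Cy T)) := fun i j =>
    hI (D_smooth (hb i j) _) (hs i) (hc i)
  have j3 : ∀ i j, Integrable (fun z => D (ev j) (c i j) z * φ i z)
      ((volume : Measure X).restrict (Cy T)) := fun i j =>
    hI (D_smooth (hc' i j) _) (hs i) (hc i)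
  have i4 : ∀ i, Integrable (fun z => (D et (a i) z + ∑ j, D (ev j) (b i j) z -
      ∑ j, D (ev j) (c i j) z) * φ i z) ((volume : Measure X).restrict (Cy T)) :=
    fun i => hI (((D_smooth (ha i) _).add (ContDiff.sum fun j _ => D_smooth (hb i j) _)).sub
      (ContDiff.sum fun j _ => D_smooth (hc' i j) _)) (hs i) (hc i)
  rw [integral_finsetSum _ fun i _ => i1 i, integral_finsetSum _ fun i _ => i0 i,
    integral_finsetSum _ fun i _ => integrable_finsetSum _ fun j _ => i2 i j,
    integral_finsetSum _ fun i _ => integrable_finsetSum _ fun j _ => i3 i j,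
    integral_finsetSum _ fun i _ => i4 i, ← Finset.sum_neg_distrib, ← Finset.sum_sub_distrib,
    ← Finset.sum_sub_distrib, ← Finset.sum_add_distrib]
  refine Finset.sum_congr rfl fun i _ => ?_
  rw [integral_finsetSum _ fun j _ => i2 i j, integral_finsetSum _ fun j _ => i3 i j,
    ibpT hT (ha i) (hs i) (hc i) (h0 i)]
  have e2 : ∀ j, ∫ z in Cy T, b i j z * D (ev j) (φ i) z =
      - ∫ z in Cy T, D (ev j) (b i j) z * φ i z := fun j => ibpS (hb i j) (hs i) (hc i) j
  have e3 : ∀ j, ∫ z in Cy T, c i j z * D (ev j) (φ i) z =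
      - ∫ z in Cy T, D (ev j) (c i j) z * φ i z := fun j => ibpS (hc' i j) (hs i) (hc i) j
  simp only [e2, e3, Finset.sum_neg_distrib]
  have e4 : ∫ z in Cy T, (D et (a i) z + ∑ j, D (ev j) (b i j) z -
      ∑ j, D (ev j) (c i j) z) * φ i z = (∫ z in Cy T, D et (a i) z * φ i z)
      + (∑ j, ∫ z in Cy T, D (ev j) (b i j) z * φ i z)
      - ∑ j, ∫ z in Cy T, D (ev j) (c i j) z * φ i z := by
    have k2 : Integrable (fun z => ∑ j, D (ev j) (b i j) z * φ i z)
        ((volume : Measure X).restrict (Cy T)) := integrable_finsetSum _ fun j _ => j2 i j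
    have k3 : Integrable (fun z => ∑ j, D (ev j) (c i j) z * φ i z)
        ((volume : Measure X).restrict (Cy T)) := integrable_finsetSum _ fun j _ => j3 i j
    have k12 : Integrable (fun z => D et (a i) z * φ i z +
        ∑ j, D (ev j) (b i j) z * φ i z)
        ((volume : Measure X).restrict (Cy T)) := (j1 i).add k2
    rw [← integral_finsetSum _ fun j _ => j2 i j, ← integral_finsetSum _ fun j _ => j3 i j,
      ← integral_add (j1 i) k2, ← integral_sub k12 k3]
    refine integral_congr_ae (Eventually.of_forall fun z => ?_)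
    beta_reduce
    rw [sub_mul, add_mul, Finset.sum_mul, Finset.sum_mul]
  rw [e4]
  ring

/-- smooth solenoidal background flows with spatial support in `K` -/
structure Bg (K : Set E3) (w : Fin 3 → X → ℝ) : Prop where
  Kc : IsCompact K
  s : ∀ i, ContDiff ℝ ∞ (w i)
  cs : ∀ i, HasCompactSupport (w i)
  ts : ∀ i z, z ∈ tsupport (w i) → z.2 ∈ K
  div : ∀ z, ∑ i, D (ev i) (w i) z = 0

/-- smooth densities transported by the background flow, with bounds -/
structure BgD (K : Set E3) (w : Fin 3 → X → ℝ) (q : X → ℝ) (m M : ℝ) : Prop where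
  s : ContDiff ℝ ∞ q
  t : ∀ z, D et q z + ∑ j, w j z * D (ev j) q z = 0
  st : ∀ z : X, z.2 ∉ K → q z = q (0, z.2)
  m0 : 0 < m
  lo : ∀ z, m ≤ q z
  hi : ∀ z, q z ≤ M

/-- the stress -/
def Sw (μ : ℝ) (w : Fin 3 → X → ℝ) (i j : Fin 3) (z : X) : ℝ :=
  μ * (D (ev j) (w i) z + D (ev i) (w j) z)

/-- the force density of the background flow -/
def Hw (μ : ℝ) (w : Fin 3 → X → ℝ) (q : X → ℝ) (i : Fin 3) (z : X) : ℝ :=
  D et (fun y => q y * w i y) z + ∑ j, D (ev j) (fun y => q y * (w i y * w j y)) z -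
    ∑ j, D (ev j) (Sw μ w i j) z

/-- the force of the background flow -/
def Fw (μ : ℝ) (w : Fin 3 → X → ℝ) (q : X → ℝ) (i : Fin 3) (z : X) : ℝ := Hw μ w q i z / q z

lemma D_off {K' : Set X} (hK' : IsClosed K') {F : X → ℝ} (hF : ∀ z, z ∉ K' → F z = 0) (v : X)
    {z : X} (hz : z ∉ K') : D v F z = 0 := by
  have h1 : F =ᶠ[𝓝 z] fun _ => 0 := by
    filter_upwards [hK'.isOpen_compl.mem_nhds hz] with y hy
    exact hF y hy
  rw [D_congr_nhds v h1, D_const]

section

variable {K : Set E3} {w : Fin 3 → X → ℝ} {q : X → ℝ} {m M μ : ℝ}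

namespace Bg

variable (h : Bg K w)
include h

lemma zero (i : Fin 3) {z : X} (hz : z.2 ∉ K) : w i z = 0 :=
  image_eq_zero_of_notMem_tsupport fun h' => hz (h.ts i z h')

lemma Dzero (v : X) (i : Fin 3) {z : X} (hz : z.2 ∉ K) : D v (w i) z = 0 :=
  D_eq_zero_of_notMem v fun h' => hz (h.ts i z h')

lemma Ss (i j : Fin 3) : ContDiff ℝ ∞ (Sw μ w i j) :=
  contDiff_const.mul ((D_smooth (h.s i) _).add (D_smooth (h.s j) _))

lemma Hs (hq : ContDiff ℝ ∞ q) (i : Fin 3) : ContDiff ℝ ∞ (Hw μ w q i) := by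
  unfold Hw
  exact ((D_smooth (hq.mul (h.s i)) _).add (ContDiff.sum fun j _ =>
    D_smooth (hq.mul ((h.s i).mul (h.s j))) _)).sub (ContDiff.sum fun j _ => D_smooth (h.Ss i j) _)

lemma Hz (i : Fin 3) {z : X} (hz : z.2 ∉ K) : Hw μ w q i z = 0 := by
  have hK' : IsClosed (Prod.snd ⁻¹' K : Set X) := h.Kc.isClosed.preimage continuous_snd
  unfold Hw
  have h0 : D et (fun y => q y * w i y) z = 0 :=
    D_off hK' (fun y hy => by rw [h.zero i hy, mul_zero]) _ hz
  have h1 : ∀ j, D (ev j) (fun y => q y * (w i y * w j y)) z = 0 := fun j =>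
    D_off hK' (fun y hy => by rw [h.zero i hy, zero_mul, mul_zero]) _ hz
  have h2 : ∀ j, D (ev j) (Sw μ w i j) z = 0 := fun j =>
    D_off hK' (fun y hy => by
      unfold Sw
      rw [h.Dzero _ i hy, h.Dzero _ j hy, add_zero, mul_zero]) _ hz
  simp [h0, h1, h2]

/-- the momentum equation of the background flow -/
lemma mom (hq : ContDiff ℝ ∞ q) (hT : 0 < T) {φ : Fin 3 → X → ℝ} (hs : ∀ i, ContDiff ℝ ∞ (φ i))
    (hc : ∀ i, HasCompactSupport (φ i)) (h0 : ∀ i x, φ i (T, x) = 0) :
    - (∫ z in Cy T, ∑ i, q z * w i z * D et (φ i) z)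
    - (∫ x, ∑ i, q (0, x) * w i (0, x) * φ i (0, x))
    - (∫ z in Cy T, ∑ i, ∑ j, q z * (w i z * w j z) * D (ev j) (φ i) z)
    + (∫ z in Cy T, ∑ i, ∑ j, Sw μ w i j z * D (ev j) (φ i) z)
    = ∫ z in Cy T, ∑ i, Hw μ w q i z * φ i z :=
  mom_gen hT (a := fun i y => q y * w i y) (b := fun i j y => q y * (w i y * w j y))
    (c := Sw μ w) (fun i => hq.mul (h.s i)) (fun i j => hq.mul ((h.s i).mul (h.s j)))
    (fun i j => h.Ss i j) hs hc h0

/-- the transport equation for the background flow -/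
lemma transport (hq : BgD K w q m M) (hT : 0 < T) {ψ : X → ℝ} (hψ : ContDiff ℝ ∞ ψ)
    (hc : HasCompactSupport ψ) (h0 : ∀ x, ψ (0, x) = 0) (hT0 : ∀ x, ψ (T, x) = 0) :
    ∫ z in Cy T, q z * (D et ψ z + ∑ j, w j z * D (ev j) ψ z) = 0 := by
  have hI : ∀ {a b : X → ℝ}, ContDiff ℝ ∞ a → ContDiff ℝ ∞ b → HasCompactSupport b →
      Integrable (fun z => a z * b z) ((volume : Measure X).restrict (Cy T)) := fun ha hb hcb =>
    (int_cc (ha.mul hb) hcb.mul_left).restrict
  have e0 : ∀ z, q z * (D et ψ z + ∑ j, w j z * D (ev j) ψ z) =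
      q z * D et ψ z + ∑ j, q z * w j z * D (ev j) ψ z := by
    intro z
    rw [mul_add, Finset.mul_sum]
    congr 1
    exact Finset.sum_congr rfl fun j _ => by ring
  simp only [e0]
  have k1 := hI hq.s (D_smooth hψ et) (D_hcs hc _)
  have k2 : ∀ j, Integrable (fun z => q z * w j z * D (ev j) ψ z)
      ((volume : Measure X).restrict (Cy T)) := fun j =>
    hI (hq.s.mul (h.s j)) (D_smooth hψ _) (D_hcs hc _)
  have k3 := hI (D_smooth hq.s et) hψ hc
  have k4 : ∀ j, Integrable (fun z => D (ev j) (fun y => q y * w j y) z * ψ z)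
      ((volume : Measure X).restrict (Cy T)) := fun j =>
    hI (D_smooth (hq.s.mul (h.s j)) _) hψ hc
  rw [integral_add k1 (integrable_finsetSum _ fun j _ => k2 j),
    integral_finsetSum _ fun j _ => k2 j, ibpT hT hq.s hψ hc hT0]
  have e : ∀ j, ∫ z in Cy T, q z * w j z * D (ev j) ψ z =
      - ∫ z in Cy T, D (ev j) (fun y => q y * w j y) z * ψ z :=
    fun j => ibpS (hq.s.mul (h.s j)) hψ hc j
  simp only [e, Finset.sum_neg_distrib, h0, mul_zero, integral_zero, sub_zero]
  rw [← integral_finsetSum _ fun j _ => k4 j, ← neg_add,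
    ← integral_add k3 (integrable_finsetSum _ fun j _ => k4 j)]
  have e2 : ∀ z, D et q z * ψ z + ∑ j, D (ev j) (fun y => q y * w j y) z * ψ z = 0 := by
    intro z
    have e3 : ∀ j, D (ev j) (fun y => q y * w j y) z =
        w j z * D (ev j) q z + q z * D (ev j) (w j) z := fun j => by
      rw [D_mul hq.s (h.s j)]
      ring
    simp only [e3]
    rw [← Finset.sum_mul, Finset.sum_add_distrib, ← Finset.mul_sum, h.div, mul_zero, add_zero,
      ← add_mul, hq.t, zero_mul]
  simp [e2]

/-- the density transported by the background flow -/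
lemma exists_dens {r : E3 → ℝ} (hr : ContDiff ℝ ∞ r) (hm : 0 < m) (hlo : ∀ x, m ≤ r x)
    (hhi : ∀ x, r x ≤ M) : ∃ q : X → ℝ, BgD K w q m M ∧ ∀ x, q (0, x) = r x := by
  have hY := isLabel_lab h.s h.cs
  have hinit : ∀ x : E3, (vec fun i => lab w i (0, x)) = x := by
    intro x
    ext i
    simp [hY.init]
  refine ⟨fun z => r (vec fun i => lab w i z), ⟨hr.comp (contDiff_vec hY.smooth),
    fun z => transport_comp hY hr z, fun z hz => ?_, hm, fun z => hlo _, fun z => hhi _⟩,
    fun x => congrArg r (hinit x)⟩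
  have h1 : ∀ (i : Fin 3) (t : ℝ), HasDerivAt (fun t => lab w i (t, z.2)) 0 t := by
    intro i t
    have h2 : HasDerivAt (fun t : ℝ => ((t, z.2) : X)) (1, 0) t :=
      (hasDerivAt_id t).prodMk (hasDerivAt_const t z.2)
    have h3 := ((smooth_diff (hY.smooth i)) (t, z.2)).hasFDerivAt.comp_hasDerivAt t h2
    have h4 := hY.transport i (t, z.2)
    have h5 : ∀ j, w j (t, z.2) = 0 := fun j => h.zero j hz
    simp only [h5, zero_mul, Finset.sum_const_zero, add_zero] at h4
    have h6 : (fderiv ℝ (lab w i) (t, z.2)) (1, 0) = 0 := h4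
    rw [h6] at h3
    exact h3
  have h2 : ∀ i, lab w i z = lab w i (0, z.2) := fun i =>
    is_const_of_deriv_eq_zero (fun t => (h1 i t).differentiableAt) (fun t => (h1 i t).deriv) z.1 0
  simp only [h2]

end Bg

lemma BgD.pos (h : BgD K w q m M) (z : X) : 0 < q z := h.m0.trans_le (h.lo z)

end

end

end Pool.Agent.J6H60.MH
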