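import Pool.Agent.J6H60.MH.Scale

/-!
# Non-uniqueness for a dense set of smooth initial velocities and densities
-/

set_option autoImplicit false

open scoped ContDiff ENNReal
open Set MeasureTheory Filter Topology Pool.Agent.H729R2 Pool.Agent.H729R2.MHD
open Pool.Agent.Y616.MH

namespace Pool.Agent.J6H60.MH

noncomputable section

section raw

variable {F : Fam} {K₀ : Set X} {b T : ℝ} {c d : ℕ → ℝ} {rL : E3 → ℝ} {fL : Fin 3 → X → ℝ}

lemma raw_A {Ω : Set E3} (hΩ : IsOpen Ω) (hbd : Bornology.IsBounded Ω) (hT : 0 < T)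
    (h : F.Ok K₀ b) (hKΩ : K₀ ⊆ Cyl Ω T)
    (fm : ∀ i, MemLp (fL i) 2 (volume : Measure X)) (fz : ∀ i z, z ∉ F.W univ → fL i z = 0)
    {A : Set ℕ} {uL tL : Fin 3 → X → ℝ} {xL : Fin 3 → Fin 3 → X → ℝ} {RL : X → ℝ}
    (hL : LimA F K₀ T b c d rL fL A uL tL xL RL)
    {uM tM : Fin 3 → X → ℝ} {xM : Fin 3 → Fin 3 → X → ℝ} {RM : X → ℝ}
    (hM : LimA F K₀ T b c d rL fL Aᶜ uM tM xM RM) :
    Raw Ω T K₀ b rL fL RL uL xL := by
  have hK := h.K₀c
  have hl := hL.lims
  obtain ⟨C, -, -, hC, -⟩ := hl.u_bdd hK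
  refine ⟨hl.rc, hl.Rc, hl.rb, hl.Rb, fun z hz hP => ?_, fun y => ?_, hl.uc, hl.xc,
    fun i z hz => hl.u_zero hK i hz, fun i j z hz => hl.x_zero hK i j hz, ⟨C, hC⟩,
    fun t => hl.inH hK hΩ hbd hKΩ t, fun t => hl.inV hK hΩ hbd hKΩ t, hl.transport2 hK hΩ,
    fun ρ₀ => momentumA hΩ h hKΩ fm fz hL hM ρ₀⟩
  · exact hL.R z ⟨hz.1.1.le, hz.1.2.le⟩ fun k _ ⟨y, hy, he⟩ => hP ⟨y, h.sub k hy, he⟩
  · refine tendsto_nhds_unique (hl.Rl (0, y) ⟨le_rfl, hT.le⟩) ?_
    have : ∀ n, (F.G A n).R2 (0, y) = (F.G A n).r y := by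
      intro n
      unfold St.R2
      congr 1
      ext i
      exact ((hl.good n).lab_isLabel hK).init y i
    simp only [this]
    exact hl.rl y

lemma raw_rest {Ω : Set E3} (hΩ : IsOpen Ω) (h : F.Ok K₀ b)
    (hKΩ : K₀ ⊆ Cyl Ω T) (fz : ∀ i z, z ∉ F.W univ → fL i z = 0)
    {uL tL : Fin 3 → X → ℝ} {xL : Fin 3 → Fin 3 → X → ℝ} {RL : X → ℝ}
    (hL : LimA F K₀ T b c d rL fL univ uL tL xL RL) :
    Raw Ω T K₀ b rL fL (fun z => rL z.2) (fun _ _ => 0) (fun _ _ _ => 0) := by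
  have hK := h.K₀c
  have hl := hL.lims
  have e : (fun (t : ℝ) (x : E3) => vec fun i => (F.W univ).indicator (fL i) (t, x)) =
      fun t x => vec fun i => fL i (t, x) := by
    funext t x
    congr 1
    funext i
    rw [W_univ_ind fz i]
  refine ⟨hl.rc, hl.rc.comp continuous_snd, hl.rb, fun z => hl.rb _, fun z _ _ => rfl,
    fun y => rfl, fun i => continuous_const, fun i j => continuous_const, fun i z _ => rfl,
    fun i j z _ => rfl, ⟨0, fun i z => by simp⟩, fun t => zero_inH Ω, fun t => zero_inV Ω,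
    hl.transport1 hK hΩ, fun ρ₀ => ?_⟩
  have hm := hl.momentum1 hK hΩ hKΩ h.b1 ρ₀
  rw [e] at hm
  exact hm

end raw

lemma memLp_Th {l : ℝ} (hl : 0 < l) {f : X → ℝ} (hf : MemLp f 2 (volume : Measure X)) :
    MemLp (fun z => f (Th l z)) 2 (volume : Measure X) := by
  have h1 := ((ThH hl).isClosedEmbedding.measurableEmbedding).memLp_map_measure_iff
    (μ := (volume : Measure X)) (p := 2) (g := f)
  have e : ⇑(ThH hl) = Th l := rfl
  rw [e, map_Th hl] at h1
  exact h1.1 (hf.smul_measure ENNReal.ofReal_ne_top)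

lemma memLp_cyl {Ω : Set E3} (hΩ : IsOpen Ω) (hbd : Bornology.IsBounded Ω) {T : ℝ} {g : X → ℝ}
    (hg : Continuous g) : MemLp g 2 (volume.restrict (Cyl Ω T)) := by
  have hcomp : IsCompact (Icc 0 T ×ˢ closure Ω : Set X) := isCompact_Icc.prod hbd.isCompact_closure
  have hsub : Cyl Ω T ⊆ Icc 0 T ×ˢ closure Ω := fun z hz =>
    ⟨⟨hz.1.1.le, hz.1.2.le⟩, subset_closure hz.2⟩
  have hfin : IsFiniteMeasure (volume.restrict (Cyl Ω T)) := ⟨by
    rw [Measure.restrict_apply_univ]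
    exact (measure_mono hsub).trans_lt hcomp.measure_lt_top⟩
  obtain ⟨C, hC⟩ := hcomp.exists_bound_of_continuousOn (f := g) hg.continuousOn
  exact MemLp.of_bound hg.aestronglyMeasurable C ((ae_restrict_iff' (cyl_meas hΩ T)).2
    (Eventually.of_forall fun z hz => hC z (hsub hz)))

lemma not_ae {Ω : Set E3} (hΩ : IsOpen Ω) {T : ℝ} {g g' : X → E3} (hg : Continuous g)
    (hg' : Continuous g') {z₁ : X} (hz : z₁ ∈ Cyl Ω T) (hne : g z₁ ≠ g' z₁) :
    ¬ ∀ᵐ z ∂(volume.restrict (Cyl Ω T)), g z = g' z := by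
  intro hae
  set V : Set X := Cyl Ω T ∩ {z | g z ≠ g' z} with hV
  have hVo : IsOpen V := (isOpen_Ioo.prod hΩ).inter (isOpen_ne_fun hg hg')
  have hVpos : 0 < volume V := hVo.measure_pos volume ⟨z₁, hz, hne⟩
  rw [ae_restrict_iff' (cyl_meas hΩ T), ae_iff] at hae
  have hsub : V ⊆ {z : X | ¬ (z ∈ Cyl Ω T → g z = g' z)} := fun y hy hcon => hy.2 (hcon hy.1)
  exact absurd (measure_mono_null hsub hae) hVpos.ne'

/-- the chain rule for the scaling -/
lemma hasFDeriv_Th {g : X → ℝ} {l t : ℝ} {x : Fin 3 → ℝ} {z : X}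
    (h : HasFDerivAt g (lf t x) (Th l z)) :
    HasFDerivAt (fun z => l * g (Th l z)) (lf (l * (l * t)) fun j => l * x j) z := by
  have h1 : HasFDerivAt (Th l) ((l • ContinuousLinearMap.fst ℝ ℝ E3).prod
      (ContinuousLinearMap.snd ℝ ℝ E3)) z :=
    ((ContinuousLinearMap.fst ℝ ℝ E3).hasFDerivAt.const_mul l).prodMk
      (ContinuousLinearMap.snd ℝ ℝ E3).hasFDerivAt
  have h2 := (h.comp z h1).const_mul l
  refine h2.congr_fderiv ?_
  refine ContinuousLinearMap.ext fun w => ?_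
  have e1 : (l • (lf t x).comp ((l • ContinuousLinearMap.fst ℝ ℝ E3).prod
      (ContinuousLinearMap.snd ℝ ℝ E3))) w = l * lf t x (l * w.1, w.2) := rfl
  rw [e1, lf_apply, lf_apply, mul_add, Finset.mul_sum]
  congr 1
  · ring
  · exact Finset.sum_congr rfl fun j _ => by ring

/-- smooth solenoidal fields with compact support in `S` -/
def Sol (S : Set (ℝ × R3)) (w : ℝ × R3 → R3) : Prop :=
  ContDiff ℝ ∞ w ∧ HasCompactSupport w ∧ tsupport w ⊆ S ∧
    ∀ z, ∑ i, dx i (fun y => w y i) z = 0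

/-- For some initial density `ρ₀` which is `ε`-close to `r` and some force `f ∈ L²(0,T;L²)`, the
system with constant viscosity `μ`, initial velocity `w(0)` and zero initial magnetic field has the
weak solution `(ρw, w, 0)` and continuum many further ones `(ρ A, u A, 0)`, `A ⊆ ℕ`, with pairwise
different velocities, such that `u A - w` has compact support in `(0,T) × Ω` and is `ε`-close to
`v` in `C¹`. -/
def Many (Ω : Set R3) (T μ : ℝ) (σ : ℝ → ℝ) (r : R3 → ℝ) (w v : ℝ × R3 → R3) (ε : ℝ) : Prop :=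
  ∃ (ρ₀ : R3 → ℝ) (f : ℝ → R3 → R3) (ρw : ℝ → R3 → ℝ) (ρ : Set ℕ → ℝ → R3 → ℝ)
    (u : Set ℕ → ℝ → R3 → R3), Continuous ρ₀ ∧ (∀ x, |ρ₀ x - r x| ≤ ε) ∧
    IsData Ω T (fun _ => μ) σ ρ₀ (fun x => w (0, x)) 0 f ∧
    WeakSol Ω T (fun _ => μ) σ ρ₀ (fun x => w (0, x)) 0 f ρw (fun t x => w (t, x)) 0 ∧
    Continuous (fun z : ℝ × R3 => ρw z.1 z.2) ∧
    (∀ A, WeakSol Ω T (fun _ => μ) σ ρ₀ (fun x => w (0, x)) 0 f (ρ A) (u A) 0 ∧
      Continuous (fun z : ℝ × R3 => ρ A z.1 z.2) ∧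
      ContDiff ℝ 1 (fun z : ℝ × R3 => u A z.1 z.2) ∧
      HasCompactSupport (fun z : ℝ × R3 => u A z.1 z.2 - w z) ∧
      tsupport (fun z : ℝ × R3 => u A z.1 z.2 - w z) ⊆ Cyl Ω T ∧
      ∀ z : ℝ × R3, ‖u A z.1 z.2 - w z - v z‖ ≤ ε ∧
        ‖fderiv ℝ (fun z : ℝ × R3 => u A z.1 z.2 - w z - v z) z‖ ≤ ε) ∧
    ∀ A B, A ≠ B → ¬ ∀ᵐ z ∂(volume.restrict (Cyl Ω T)), u A z.1 z.2 = u B z.1 z.2

theorem many {Ω : Set R3} (hΩ : IsOpen Ω) (hbd : Bornology.IsBounded Ω) (hne : Ω.Nonempty)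
    {T μ : ℝ} (hT : 0 < T) (hμ : 0 < μ) {σ : ℝ → ℝ} (hσ : Coeff σ) {r : R3 → ℝ}
    (hr : ContDiff ℝ ∞ r) {a₀ b₀ : ℝ} (ha₀ : 0 < a₀) (hrb : ∀ x, a₀ ≤ r x ∧ r x ≤ b₀)
    {w v : ℝ × R3 → R3} (hw : Sol (univ ×ˢ Ω) w) (hv : Sol (Cyl Ω T) v)
    (hvw : ∀ z ∈ tsupport v, ∀ t, (t, z.2) ∉ tsupport w)
    (hvr : ∀ z ∈ tsupport v, ∀ z' ∈ tsupport v, r z.2 = r z'.2) {ε : ℝ} (hε : 0 < ε) :
    Many Ω T μ σ r w v ε := by
  obtain ⟨hws, hwc, hwt, hwd⟩ := hw
  obtain ⟨hvs, hvc, hvt, hvd⟩ := hv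
  -- the background flow
  set K : Set E3 := Prod.snd '' tsupport w with hK
  have hKc : IsCompact K := IsCompact.image hwc continuous_snd
  have hKΩ : K ⊆ Ω := by
    rintro y ⟨z, hz, rfl⟩
    exact (hwt hz).2
  set w' : Fin 3 → X → ℝ := fun i z => w z i with hw'
  have htsw : ∀ i, tsupport (w' i) ⊆ tsupport w := fun i => closure_mono fun z hz h0 => hz (by
    simp only [hw', h0]; rfl)
  have hbg : Bg K w' := ⟨hKc, contDiff_euclidean.1 hws, fun i =>
    HasCompactSupport.of_support_subset_isCompact hwc (subset_closure.trans (htsw i)),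
    fun i z hz => ⟨z, htsw i hz, rfl⟩, hwd⟩
  obtain ⟨q, hq, hq0⟩ := hbg.exists_dens (m := a₀ / 2) (M := 2 * b₀) hr (by positivity)
    (fun x => by linarith [(hrb x).1]) (fun x => by linarith [(hrb x).1, (hrb x).2])
  -- the base point
  obtain ⟨x₀, hx₀Ω, hx₀K, hx₀v⟩ : ∃ x₀ ∈ Ω, x₀ ∉ K ∧ ∀ z ∈ tsupport v, r z.2 = r x₀ := by
    by_cases hvn : (tsupport v).Nonempty
    · obtain ⟨z₀, hz₀⟩ := hvn
      refine ⟨z₀.2, (hvt hz₀).2, ?_, fun z hz => hvr z hz z₀ hz₀⟩
      rintro ⟨y, hy, he⟩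
      refine hvw z₀ hz₀ y.1 ?_
      rw [← he]
      exact hy
    · obtain ⟨x₀, R, hR, hRs⟩ := exists_ball hΩ hbd hne hKc hKΩ
      have h1 := hRs (Metric.mem_closedBall_self hR.le)
      exact ⟨x₀, h1.1, h1.2, fun z hz => absurd ⟨z, hz⟩ hvn⟩
  set c : ℝ := r x₀ with hc
  have hc0 : 0 < c := ha₀.trans_le (hrb x₀).1
  set l : ℝ := μ / c with hl'
  have hl : 0 < l := div_pos hμ hc0
  have hcl : c * l = μ := by rw [hl']; field_simp
  set Ω' : Set E3 := (Ω \ K) ∩ {x | |r x - c| < ε / 2} with hΩ'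
  have hΩo : IsOpen Ω' := (hΩ.sdiff hKc.isClosed).inter
    (isOpen_lt (hr.continuous.sub continuous_const).abs continuous_const)
  have hΩs : Ω' ⊆ Ω := fun x hx => hx.1.1
  have hbd' : Bornology.IsBounded Ω' := hbd.subset hΩs
  have hne' : Ω'.Nonempty := ⟨x₀, ⟨hx₀Ω, hx₀K⟩, by
    change |r x₀ - c| < ε / 2
    rw [hc, sub_self, abs_zero]; positivity⟩
  have hlT : 0 < l * T := mul_pos hl hT
  -- the scaled field
  set v' : Fin 3 → X → ℝ := fun i z => l⁻¹ * v (Th l⁻¹ z) i with hv'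
  have hvis : ∀ i, ContDiff ℝ ∞ fun z => v z i := contDiff_euclidean.1 hvs
  have hv's : ∀ i, ContDiff ℝ ∞ (v' i) := fun i =>
    contDiff_const.mul ((hvis i).comp (Th_smooth _))
  have hcompact : IsCompact (Th l⁻¹ ⁻¹' tsupport v) := (ThH hl).symm.isCompact_preimage.2 hvc
  have hv't : ∀ i, tsupport (v' i) ⊆ Th l⁻¹ ⁻¹' tsupport v := by
    intro i
    refine closure_minimal (fun z hz => ?_) hcompact.isClosed
    by_contra hcon
    apply hz
    have h1 : v (Th l⁻¹ z) = 0 := image_eq_zero_of_notMem_tsupport hcon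
    simp only [hv', h1]
    simp
  have hv'c : ∀ i, HasCompactSupport (v' i) := fun i =>
    HasCompactSupport.of_support_subset_isCompact hcompact (subset_closure.trans (hv't i))
  have hv'sub : ∀ i, tsupport (v' i) ⊆ Cyl Ω' (l * T) := by
    intro i z hz
    have h1 : Th l⁻¹ z ∈ tsupport v := hv't i hz
    have h2 := hvt h1
    have h3 : z ∈ Cyl Ω (l * T) := by
      rw [← preim_cyl hl, mem_preimage, Th_inv hl] at h2
      exact h2
    refine ⟨h3.1, ⟨h3.2, ?_⟩, ?_⟩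
    · rintro ⟨y, hy, he⟩
      refine hvw _ h1 y.1 ?_
      have : (y.1, (Th l⁻¹ z).2) = y := Prod.ext rfl he.symm
      rw [this]
      exact hy
    · change |r z.2 - c| < ε / 2
      have : r z.2 = c := hx₀v (Th l⁻¹ z) h1
      rw [this, sub_self, abs_zero]
      positivity
  have hv'd : ∀ z, ∑ i, D (ev i) (v' i) z = 0 := by
    intro z
    have h1 : ∀ i, D (ev i) (v' i) z = l⁻¹ * dx i (fun y => v y i) (Th l⁻¹ z) := by
      intro i
      have e := D_const_mul ((hvis i).comp (Th_smooth l⁻¹)) l⁻¹ (ev i)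
      have e2 := Dx_Th (hvis i) l⁻¹ i z
      change D (ev i) (fun z => l⁻¹ * ((fun z => v z i) ∘ Th l⁻¹) z) z = _
      rw [e]
      exact congrArg (l⁻¹ * ·) e2
    simp only [h1]
    rw [← Finset.mul_sum, hvd, mul_zero]
  set e' : ℝ := ε / (8 * (1 + l) ^ 2) with he'
  have he0 : 0 < e' := by positivity
  set b : ℝ := min (ε / (4 * c)) (1 / 2) with hb
  have hb0 : 0 < b := lt_min (by positivity) (by norm_num)
  have hb1 : b ≤ 1 / 2 := min_le_right _ _
  have hb2 : b ≤ ε / (4 * c) := min_le_left _ _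
  obtain ⟨F, K₀, Cs, cs, d, h, hKΩ', hrt, hv0, hvK, hd, hcs, hnz⟩ :=
    exists_family hΩo hbd' hne' hlT hv's hv'c hv'sub hv'd he0 hb0 hb1
  obtain ⟨rL, fL, fm, fz, hA⟩ := h.exists_limits hrt hlT
  choose uL tL xL RL hL using hA
  have hK0Ω : K₀ ⊆ Cyl Ω (l * T) := hKΩ'.trans fun z hz => ⟨hz.1, hΩs hz.2⟩
  have hK₀c := h.K₀c
  have hm1 : a₀ / 2 ≤ c / 2 := by linarith [(hrb x₀).1]
  have hM1 : 2 * c ≤ 2 * b₀ := by linarith [(hrb x₀).2]
  -- the cutoff
  set P : Set E3 := Prod.snd '' (Th l ⁻¹' K₀) with hP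
  have hK₀' : IsCompact (Th l ⁻¹' K₀) := (ThH hl).isCompact_preimage.2 hK₀c
  have hPc : IsCompact P := hK₀'.image continuous_snd
  have hPΩ : P ⊆ Ω' := by
    rintro y ⟨z, hz, rfl⟩
    exact (hKΩ' hz).2
  obtain ⟨χ, χ0, χ1, χr⟩ := exists_continuous_zero_one_of_isClosed hΩo.isClosed_compl
    hPc.isClosed (Set.disjoint_left.2 fun y h1 h2 => h1 (hPΩ h2))
  have hχ : Cut K P χ := ⟨χ.continuous, fun y hy => χ1 hy, fun y hy => χ0 fun h' => h'.1.2 hy,
    fun y => (χr y).1, fun y => (χr y).2⟩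
  have hl1 := (hL univ).lims
  have hfm' : ∀ i, MemLp (fun z => l ^ 2 * fL i (Th l z)) 2 (volume : Measure X) := fun i =>
    (memLp_Th hl (fm i)).const_mul _
  have hfz' : ∀ i z, z ∉ Th l ⁻¹' K₀ → l ^ 2 * fL i (Th l z) = 0 := by
    intro i z hz
    rw [fz i _ fun hc' => hz ?_, mul_zero]
    obtain ⟨k, -, hk⟩ := mem_iUnion₂.1 hc'
    exact h.sub k hk
  have hB := fun A : Set ℕ => (raw_A hΩ hbd hlT h hK0Ω fm fz (hL A) (hL Aᶜ)).base
    (m := a₀ / 2) (M := 2 * b₀) hbd hl hc0 hb1 hK₀c hm1 hM1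
  have hB0 := (raw_rest hΩ h hK0Ω fz (hL univ)).base
    (m := a₀ / 2) (M := 2 * b₀) hbd hl hc0 hb1 hK₀c hm1 hM1
  rw [hcl] at hB0
  simp only [hcl] at hB
  have hvel : (fun y : E3 => vec fun i => w' i (0, y)) = fun y => w (0, y) := rfl
  have hρc : Continuous (rh χ (fun y => c / rL y) q) :=
    rh_c hχ (hB univ).rc hq.s.continuous
  have hρb : ∀ y, a₀ / 2 ≤ rh χ (fun y => c / rL y) q y ∧
      rh χ (fun y => c / rL y) q y ≤ 2 * b₀ := by
    intro y
    have h1 := (hB univ).R0 y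
    refine conv_b (hχ.nn y) (hχ.le y) ⟨?_, ?_⟩ ⟨hq.lo _, hq.hi _⟩
    · exact ((hB univ).lo (0, y)).trans_eq h1
    · exact h1.symm.le.trans ((hB univ).hi (0, y))
  have hclose : ∀ y, |rh χ (fun y => c / rL y) q y - r y| ≤ ε := by
    intro y
    have e1 : rh χ (fun y => c / rL y) q y - r y = χ y * (c / rL y - r y) := by
      unfold rh
      rw [hq0]
      ring
    rw [e1, abs_mul, abs_of_nonneg (hχ.nn y)]
    by_cases hy : y ∈ Ω'
    · have h0 := pos_of_b hb1 (hl1.rb y)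
      have h1 : |c / rL y - r y| ≤ |c / rL y - c| + |r y - c| := by
        have := abs_sub_le (c / rL y) c (r y)
        rwa [abs_sub_comm c (r y)] at this
      have h2 : |r y - c| < ε / 2 := hy.2
      have h3 : |c / rL y - c| ≤ ε / 2 := by
        have e2 : c / rL y - c = -(c / rL y * (rL y - 1)) := by
          field_simp
          ring
        rw [e2, abs_neg, abs_mul, abs_of_pos (div_pos hc0 h0)]
        calc c / rL y * |rL y - 1| ≤ (2 * c) * (ε / (4 * c)) :=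
              mul_le_mul (div_b hc0 hb1 (hl1.rb y)).2 ((hl1.rb y).trans hb2) (abs_nonneg _)
                (by positivity)
          _ = ε / 2 := by field_simp; norm_num
      calc χ y * |c / rL y - r y| ≤ 1 * |c / rL y - r y| :=
            mul_le_mul_of_nonneg_right (hχ.le y) (abs_nonneg _)
        _ ≤ ε := by linarith
    · rw [χ0 hy]
      simpa using hε.le
  have hf : MemLp (fun z : X => vec fun i => l ^ 2 * fL i (Th l (z.1, z.2)) +
      Fw μ w' q i (z.1, z.2)) 2 (volume.restrict (Cyl Ω T)) := by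
    refine memLp_vec fun i => ?_
    refine ((hfm' i).restrict _).add (memLp_cyl hΩ hbd ?_)
    have : Continuous fun z => Hw μ w' q i z / q z :=
      (hbg.Hs hq.s i).continuous.div hq.s.continuous fun z => (hq.pos z).ne'
    exact this
  have hUw : ∀ (A : Set ℕ) (z : X), (vec fun i => l * uL (sh A) i (Th l (z.1, z.2)) +
      w' i (z.1, z.2)) - w z = vec fun i => l * uL (sh A) i (Th l z) := by
    intro A z
    ext i
    simp [hw']
  have hws0 := hB0.weakSol hΩ hbd hT hKΩ hbg hq hχ hfm' hfz' σ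
  have hres : (fun (t : ℝ) (y : E3) => vec fun i => l * (fun (_ : Fin 3) (_ : X) => (0:ℝ)) i
      (Th l (t, y)) + w' i (t, y)) = fun t y => w (t, y) := by
    funext t y
    ext i
    simp [hw']
  refine ⟨rh χ (fun y => c / rL y) q,
    fun t y => vec fun i => l ^ 2 * fL i (Th l (t, y)) + Fw μ w' q i (t, y),
    fun t y => Rh χ (fun z => c / rL (Th l z).2) q (t, y),
    fun A t y => Rh χ (fun z => c / RL (sh A) (Th l z)) q (t, y),
    fun A t y => vec fun i => l * uL (sh A) i (Th l (t, y)) + w' i (t, y), hρc, hclose,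
    ⟨⟨continuousOn_const, μ, μ, hμ, fun _ _ => ⟨le_rfl, le_rfl⟩⟩, hσ,
      ⟨hρc.aestronglyMeasurable, a₀ / 2, 2 * b₀, by positivity, Eventually.of_forall hρb⟩,
      hbg.inH hbd hKΩ 0, zero_inH Ω, hf⟩, ?_, Rh_c hχ hB0.Rc hq.s.continuous,
    fun A => ?_, fun A B hAB => ?_⟩
  · rw [← hres]
    exact hws0
  · have hBA := hB (sh A)
    have hLA := hL (sh A)
    have hcls := close h hv0 hvK he0 hd hcs hLA
    have hz0 : ∀ z, z ∉ Th l ⁻¹' K₀ → (vec fun i => l * uL (sh A) i (Th l z)) = 0 := by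
      intro z hz
      ext i
      exact hBA.uz i z hz
    have hvv : ∀ i z, v z i = l * v' i (Th l z) := by
      intro i z
      simp only [hv', inv_Th hl]
      field_simp
    have hdiff : ∀ z : X, (vec fun i => l * uL (sh A) i (Th l z)) - v z =
        vec fun i => l * (uL (sh A) i (Th l z) - v' i (Th l z)) := by
      intro z
      ext i
      simp only [PiLp.sub_apply, vec_apply, hvv]
      ring
    refine ⟨hBA.weakSol hΩ hbd hT hKΩ hbg hq hχ hfm' hfz' σ,
      Rh_c hχ hBA.Rc hq.s.continuous, contDiff_vec fun i => ?_, ?_, ?_, fun z => ⟨?_, ?_⟩⟩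
    · refine (contDiff_const.mul ((c1_lim h hLA i).comp ((Th_smooth l).of_le (by norm_cast)))).add
        ((hbg.s i).of_le (by norm_cast))
    · simp only [hUw A]
      exact HasCompactSupport.intro hK₀' hz0
    · simp only [hUw A]
      have hsubT : Th l ⁻¹' K₀ ⊆ Cyl Ω T := by
        rw [← preim_cyl hl Ω T]
        exact preimage_mono hK0Ω
      refine subset_trans (closure_minimal (fun z hz => ?_) hK₀'.isClosed) hsubT
      by_contra hcon
      exact hz (hz0 z hcon)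
    · rw [hUw A, hdiff]
      refine (norm_vec_le (c := l * e') fun i => ?_).trans ?_
      · rw [abs_mul, abs_of_pos hl]
        exact mul_le_mul_of_nonneg_left ((hcls _).1 i) hl.le
      · rw [he', ← mul_assoc, mul_div_assoc', div_le_iff₀ (by positivity)]
        nlinarith [mul_pos hε hl, mul_pos hε (mul_pos hl hl)]
    · have e1 : (fun z : ℝ × R3 => (vec fun i => l * uL (sh A) i (Th l (z.1, z.2)) +
          w' i (z.1, z.2)) - w z - v z) =
          fun z => vec fun i => l * (uL (sh A) i (Th l z) - v' i (Th l z)) := by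
        funext z
        rw [hUw A, hdiff]
      rw [e1]
      have h1 : ∀ i, HasFDerivAt (fun z => l * (uL (sh A) i (Th l z) - v' i (Th l z)))
          (lf (l * (l * (tL (sh A) i (Th l z) - D et (v' i) (Th l z))))
            (fun j => l * (xL (sh A) i j (Th l z) - D (ev j) (v' i) (Th l z)))) z := by
        intro i
        refine hasFDeriv_Th (g := fun y => uL (sh A) i y - v' i y) ?_
        rw [← lf_sub, ← Pool.Agent.Y616.MH.fderiv_eq]
        exact (hasFDeriv_lim h hLA i _).sub ((smooth_diff (hv's i)) _).hasFDerivAt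
      have hll : l ≤ (1 + l) ^ 2 := by nlinarith
      have hll2 : l * l ≤ (1 + l) ^ 2 := by nlinarith
      have hle : (1 + l) ^ 2 * e' = ε / 8 := by
        rw [he']
        field_simp
      refine (norm_fderiv_vec_le h1 (a := 4 * (ε / 8)) fun i => ?_).trans (by linarith)
      refine norm_lf_le (by positivity) ?_ fun j => ?_
      · rw [← mul_assoc, abs_mul, abs_of_pos (mul_pos hl hl), ← hle]
        exact mul_le_mul hll2 ((hcls _).2.1 i) (abs_nonneg _) (by positivity)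
      · rw [abs_mul, abs_of_pos hl, ← hle]
        exact mul_le_mul hll ((hcls _).2.2 i j) (abs_nonneg _) (by positivity)
  · have hcont : ∀ A : Set ℕ, Continuous fun z : X => vec fun i =>
        l * uL (sh A) i (Th l (z.1, z.2)) + w' i (z.1, z.2) := by
      intro A
      have := contDiff_vec (n := 0) (f := fun i z => l * uL (sh A) i (Th l z) + w' i z)
        fun i => contDiff_zero.2 (((hB (sh A)).uc i).add (hbg.s i).continuous)
      exact this.continuous
    have key : ∀ A B : Set ℕ, (¬ ∀ᵐ z ∂(volume.restrict (Cyl Ω (l * T))),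
        (vec fun i => uL (sh A) i (z.1, z.2)) = vec fun i => uL (sh B) i (z.1, z.2)) →
        ¬ ∀ᵐ z ∂(volume.restrict (Cyl Ω T)),
          (vec fun i => l * uL (sh A) i (Th l (z.1, z.2)) + w' i (z.1, z.2)) =
          vec fun i => l * uL (sh B) i (Th l (z.1, z.2)) + w' i (z.1, z.2) := by
      intro A B hAB'
      obtain ⟨z', hz', hne''⟩ : ∃ z' ∈ Cyl Ω (l * T),
          (vec fun i => uL (sh A) i z') ≠ vec fun i => uL (sh B) i z' := by
        by_contra hcon
        push Not at hcon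
        exact hAB' ((ae_restrict_iff' (cyl_meas hΩ _)).2 (Eventually.of_forall hcon))
      refine not_ae hΩ (hcont A) (hcont B) (z₁ := Th l⁻¹ z') ?_ fun hcon => hne'' ?_
      · rw [← preim_cyl hl, mem_preimage, Th_inv hl]
        exact hz'
      · ext i
        have h1 := congrArg (fun v : E3 => v i) hcon
        have h2 : Th l (Th l⁻¹ z') = z' := Th_inv hl z'
        have h3 : l * uL (sh A) i (Th l (Th l⁻¹ z')) + w' i (Th l⁻¹ z') =
            l * uL (sh B) i (Th l (Th l⁻¹ z')) + w' i (Th l⁻¹ z') := h1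
        rw [h2] at h3
        exact mul_left_cancel₀ hl.ne' (add_right_cancel h3)
    by_cases hk : ∃ k, k ∈ A ∧ k ∉ B
    · obtain ⟨k, h1, h2⟩ := hk
      exact key A B (distinct hΩ h hK0Ω (hL (sh A)) (hL (sh B)) h1 h2 (hnz k))
    · push Not at hk
      obtain ⟨k, h1, h2⟩ : ∃ k, k ∈ B ∧ k ∉ A := by
        by_contra hcon
        push Not at hcon
        exact hAB (Set.Subset.antisymm hk hcon)
      intro hae
      refine key B A (distinct hΩ h hK0Ω (hL (sh B)) (hL (sh A)) h1 h2 (hnz k)) ?_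
      filter_upwards [hae] with z hz
      exact hz.symm

lemma sol_zero (S : Set (ℝ × R3)) : Sol S 0 := by
  refine ⟨contDiff_const, HasCompactSupport.zero, ?_, fun z => ?_⟩
  · rw [tsupport_eq_empty_iff.2 rfl]
    exact empty_subset _
  · refine Finset.sum_eq_zero fun i _ => ?_
    have : (fun y : ℝ × R3 => (0 : ℝ × R3 → R3) y i) = fun _ => 0 := by
      ext y
      simp
    rw [this]
    simp [dx]

/-- every smooth compactly supported solenoidal field is the initial value of a flow -/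
lemma exists_ext {Ω : Set R3} {u₀ : R3 → R3} (hs : ContDiff ℝ ∞ u₀) (hc : HasCompactSupport u₀)
    (ht : tsupport u₀ ⊆ Ω) (hd : ∀ x, ∑ i, pdx i (fun y => u₀ y i) x = 0) :
    ∃ w, Sol (univ ×ˢ Ω) w ∧ ∀ x, w (0, x) = u₀ x := by
  have θ : ContDiffBump (0 : ℝ) := ⟨1, 2, one_pos, by norm_num⟩
  have hθ0 : θ 0 = 1 := θ.one_of_mem_closedBall (Metric.mem_closedBall_self θ.rIn_pos.le)
  have hz : ∀ z : ℝ × R3, z ∉ tsupport θ ×ˢ tsupport u₀ → θ z.1 • u₀ z.2 = 0 := by
    intro z hz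
    by_cases h1 : z.1 ∈ tsupport θ
    · have h2 : z.2 ∉ tsupport u₀ := fun h2 => hz ⟨h1, h2⟩
      rw [image_eq_zero_of_notMem_tsupport h2, smul_zero]
    · rw [image_eq_zero_of_notMem_tsupport h1, zero_smul]
  have hcomp : IsCompact (tsupport θ ×ˢ tsupport u₀) := θ.hasCompactSupport.isCompact.prod hc
  refine ⟨fun z => θ z.1 • u₀ z.2, ⟨?_, HasCompactSupport.intro hcomp hz, ?_, fun z => ?_⟩,
    fun x => by simp [hθ0]⟩
  · exact (θ.contDiff.comp contDiff_fst).smul (hs.comp contDiff_snd)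
  · refine subset_trans (closure_minimal (fun z hz' => ?_) hcomp.isClosed)
      (fun z hz' => (⟨mem_univ _, ht hz'.2⟩ : z ∈ (univ : Set ℝ) ×ˢ Ω))
    by_contra hcon
    exact hz' (hz z hcon)
  · have hi : ∀ i, ContDiff ℝ ∞ fun y => u₀ y i := contDiff_euclidean.1 hs
    have h1 : ∀ i, dx i (fun y : ℝ × R3 => (θ y.1 • u₀ y.2) i) z =
        θ z.1 * pdx i (fun y => u₀ y i) z.2 := by
      intro i
      have e1 : (fun y : ℝ × R3 => (θ y.1 • u₀ y.2) i) = fun y => θ y.1 * u₀ y.2 i := by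
        funext y
        rw [PiLp.smul_apply, smul_eq_mul]
      have h2 : HasFDerivAt (fun y : ℝ × R3 => θ y.1)
          ((fderiv ℝ θ z.1).comp (ContinuousLinearMap.fst ℝ ℝ R3)) z :=
        ((θ.contDiff (n := 1)).differentiable (by simp) z.1).hasFDerivAt.comp z hasFDerivAt_fst
      have h3 : HasFDerivAt (fun y : ℝ × R3 => u₀ y.2 i)
          ((fderiv ℝ (fun y => u₀ y i) z.2).comp (ContinuousLinearMap.snd ℝ ℝ R3)) z :=
        HasFDerivAt.comp z (((hi i).differentiable (by simp)) z.2).hasFDerivAt hasFDerivAt_snd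
      have h4 := h2.mul h3
      unfold dx pdx
      rw [e1]
      have h5 : fderiv ℝ (fun y : ℝ × R3 => θ y.1 * u₀ y.2 i) z = _ := h4.fderiv
      rw [h5]
      simp
    simp only [h1]
    rw [← Finset.mul_sum, hd, mul_zero]

end

end Pool.Agent.J6H60.MH
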