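import Pool.Agent.J6H60.MH.Glue

/-!
# Scaling of time and density: arbitrary constant viscosity
-/

set_option autoImplicit false

open scoped ContDiff ENNReal
open Set MeasureTheory Filter Topology Pool.Agent.H729R2 Pool.Agent.H729R2.MHD

namespace Pool.Agent.J6H60.MH

noncomputable section

/-- scaling of time -/
def Th (l : ℝ) (z : X) : X := (l * z.1, z.2)

lemma Th_smooth (l : ℝ) : ContDiff ℝ ∞ (Th l) :=
  (contDiff_const.mul contDiff_fst).prodMk contDiff_snd

lemma Th_cont (l : ℝ) : Continuous (Th l) := (Th_smooth l).continuous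

section

variable {l : ℝ} (hl : 0 < l)
include hl

lemma Th_inv (z : X) : Th l (Th l⁻¹ z) = z := by
  simp [Th, hl.ne']

lemma inv_Th (z : X) : Th l⁻¹ (Th l z) = z := by
  simp [Th, hl.ne']

/-- the scaling as a homeomorphism -/
def ThH : X ≃ₜ X where
  toFun := Th l
  invFun := Th l⁻¹
  left_inv := inv_Th hl
  right_inv := Th_inv hl
  continuous_toFun := Th_cont l
  continuous_invFun := Th_cont l⁻¹

lemma preim_cyl (Ω : Set E3) (T : ℝ) : Th l ⁻¹' Cyl Ω (l * T) = Cyl Ω T := by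
  ext z
  simp only [mem_preimage, Cyl, mem_prod, mem_Ioo, Th]
  constructor
  · rintro ⟨⟨h1, h2⟩, h3⟩
    exact ⟨⟨pos_of_mul_pos_right h1 hl.le |> fun h => h, lt_of_mul_lt_mul_left h2 hl.le⟩, h3⟩
  · rintro ⟨⟨h1, h2⟩, h3⟩
    exact ⟨⟨mul_pos hl h1, mul_lt_mul_of_pos_left h2 hl⟩, h3⟩

lemma map_Th : Measure.map (Th l) (volume : Measure X) = ENNReal.ofReal l⁻¹ • volume := by
  have h1 : Th l = Prod.map (fun t => l * t) id := rfl
  rw [h1, Measure.volume_eq_prod, ← Measure.map_prod_map _ _ (measurable_const_mul l) measurable_id,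
    Real.map_volume_mul_left hl.ne', Measure.map_id, Measure.prod_smul_left,
    abs_of_pos (inv_pos.2 hl)]

lemma int_Th (Ω : Set E3) (T : ℝ) (F : X → ℝ) :
    ∫ z in Cyl Ω T, F (Th l z) = l⁻¹ * ∫ z in Cyl Ω (l * T), F z := by
  have h1 := ((ThH hl).isClosedEmbedding.measurableEmbedding).setIntegral_map
    (μ := (volume : Measure X)) F (Cyl Ω (l * T))
  have e : ⇑(ThH hl) = Th l := rfl
  rw [e, map_Th hl, preim_cyl hl, Measure.restrict_smul, integral_smul_measure,
    ENNReal.toReal_ofReal (inv_pos.2 hl).le] at h1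
  rw [← h1, smul_eq_mul]

lemma int_scale {Ω : Set E3} {T k : ℝ} {F G : X → ℝ} (h : ∀ z, G z = k * F (Th l z)) :
    ∫ z in Cyl Ω T, G z = k * l⁻¹ * ∫ z in Cyl Ω (l * T), F z := by
  have e : (fun z => G z) = fun z => k * F (Th l z) := funext h
  rw [e, integral_const_mul, int_Th hl]
  ring

end

lemma D_Th {F : X → ℝ} (hF : ContDiff ℝ ∞ F) (l : ℝ) (v z : X) :
    D v (fun y => F (Th l y)) z = fderiv ℝ F (Th l z) (l * v.1, v.2) := by
  have h1 : HasFDerivAt (Th l) ((l • ContinuousLinearMap.fst ℝ ℝ E3).prod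
      (ContinuousLinearMap.snd ℝ ℝ E3)) z :=
    ((ContinuousLinearMap.fst ℝ ℝ E3).hasFDerivAt.const_mul l).prodMk
      (ContinuousLinearMap.snd ℝ ℝ E3).hasFDerivAt
  have h2 := ((smooth_diff hF) (Th l z)).hasFDerivAt.comp z h1
  unfold D
  have h3 : fderiv ℝ (fun y => F (Th l y)) z = _ := h2.fderiv
  rw [h3]
  rfl

lemma Dt_Th {F : X → ℝ} (hF : ContDiff ℝ ∞ F) (l : ℝ) (z : X) :
    D et (fun y => F (Th l y)) z = l * D et F (Th l z) := by
  rw [D_Th hF]
  have : ((l * et.1, et.2) : X) = l • et := by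
    simp [et]
  rw [this, map_smul]
  rfl

lemma Dx_Th {F : X → ℝ} (hF : ContDiff ℝ ∞ F) (l : ℝ) (j : Fin 3) (z : X) :
    D (ev j) (fun y => F (Th l y)) z = D (ev j) F (Th l z) := by
  rw [D_Th hF]
  have : ((l * (ev j).1, (ev j).2) : X) = ev j := by
    simp [ev]
  rw [this]
  rfl

section smul

variable {Ω : Set E3} {a : ℝ} {v : E3 → E3} {J : E3 → Fin 3 → Fin 3 → ℝ}

lemma InH.smul (h : InH Ω v) (a : ℝ) : InH Ω (fun x => a • v x) := by
  refine ⟨h.mem.const_smul a, fun ψ hψ => ?_⟩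
  have e : ∀ x, ∑ i, (a • v x) i * pdx i ψ x = a * ∑ i, v x i * pdx i ψ x := by
    intro x
    rw [Finset.mul_sum]
    refine Finset.sum_congr rfl fun i _ => ?_
    rw [PiLp.smul_apply, smul_eq_mul]
    ring
  simp only [e]
  rw [integral_const_mul, h.orth ψ hψ, mul_zero]

lemma InV.smul (h : InV Ω v J) (ha : 0 < a) :
    InV Ω (fun x => a • v x) (fun x i j => a * J x i j) := by
  refine ⟨⟨h.h1.mem.const_smul a, fun i j => (h.h1.memJ i j).const_mul a,
    fun i j ψ hψ hc hs => ?_⟩, fun ε hε => ?_, ?_⟩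
  · have e1 : ∀ x, (a • v x) i * pdx j ψ x = a * (v x i * pdx j ψ x) := fun x => by
      rw [PiLp.smul_apply, smul_eq_mul]
      ring
    have e2 : ∀ x, a * J x i j * ψ x = a * (J x i j * ψ x) := fun x => by ring
    simp only [e1, e2]
    rw [integral_const_mul, integral_const_mul, h.h1.weak i j ψ hψ hc hs]
    ring
  · have ha' : ‖a‖ₑ ≠ 0 := by simpa using ha.ne'
    have ha2 : ‖a‖ₑ ≠ ⊤ := enorm_ne_top
    have hε2 : 0 < ε / ‖a‖ₑ := ENNReal.div_pos hε.ne' ha2
    obtain ⟨φ, s, c, t, n, m⟩ := h.bdry _ hε2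
    refine ⟨fun x => a • φ x, s.const_smul a, ?_, ?_, ?_, fun i j => ?_⟩
    · exact c.smul_left (f := fun _ => a)
    · exact (closure_mono (Function.support_const_smul_subset a φ)).trans t
    · have e : (fun x => a • φ x - a • v x) = a • fun x => φ x - v x := by
        funext x
        rw [Pi.smul_apply, smul_sub]
      rw [e, eLpNorm_const_smul]
      calc ‖a‖ₑ * eLpNorm (fun x => φ x - v x) 2 (volume.restrict Ω) ≤ ‖a‖ₑ * (ε / ‖a‖ₑ) :=
            mul_le_mul_right n _
        _ ≤ ε := ENNReal.mul_div_le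
    · have e : (fun x => pdx j (fun y => (a • φ y) i) x - a * J x i j) =
          a • fun x => pdx j (fun y => φ y i) x - J x i j := by
        funext x
        have si : ContDiff ℝ ∞ fun y => φ y i := contDiff_euclidean.1 s i
        have e1 : (fun y => (a • φ y) i) = fun y => a * φ y i := rfl
        rw [Pi.smul_apply, smul_eq_mul, e1]
        unfold pdx
        rw [fderiv_const_mul (si.differentiable (by simp) x)]
        simp
        ring
      rw [e, eLpNorm_const_smul]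
      calc ‖a‖ₑ * eLpNorm (fun x => pdx j (fun y => φ y i) x - J x i j) 2 (volume.restrict Ω) ≤
            ‖a‖ₑ * (ε / ‖a‖ₑ) := mul_le_mul_right (m i j) _
        _ ≤ ε := ENNReal.mul_div_le
  · filter_upwards [h.div] with x hx
    rw [← Finset.mul_sum, hx, mul_zero]

end smul

/-- bounded continuous fields with values in `H` -/
lemma inCw_of {Ω : Set E3} {T C : ℝ} (hb : Bornology.IsBounded Ω) {u : Fin 3 → X → ℝ}
    (hu : ∀ i, Continuous (u i)) (hC : ∀ i z, |u i z| ≤ C)
    (hH : ∀ t, InH Ω (fun y => vec fun i => u i (t, y))) :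
    InCw Ω T (fun t y => vec fun i => u i (t, y)) := by
  have hfin := finite_vol hb
  have hvc : Continuous fun z : X => vec fun i => u i z := by
    have := contDiff_vec (n := 0) (f := u) fun i => contDiff_zero.2 (hu i)
    exact this.continuous
  refine ⟨hvc.aestronglyMeasurable, fun t _ => hH t, ?_, ?_⟩
  · refine ⟨(volume.restrict Ω) univ ^ (2:ℝ≥0∞).toReal⁻¹ * ENNReal.ofReal (2 * C),
      ENNReal.mul_ne_top (ENNReal.rpow_ne_top_of_nonneg (by positivity) (measure_ne_top _ _))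
        ENNReal.ofReal_ne_top, fun t _ => ?_⟩
    exact eLpNorm_le_of_ae_bound (Eventually.of_forall fun x => norm_vec_le fun i => hC i _)
  · intro g hg
    refine Continuous.continuousOn ?_
    simp only [vec_apply]
    have hgi : ∀ i, Integrable (fun x => g x i) (volume.restrict Ω) := by
      intro i
      have h1 : Integrable g (volume.restrict Ω) := hg.mem.integrable (by norm_num)
      exact (EuclideanSpace.proj i : E3 →L[ℝ] ℝ).integrable_comp h1
    refine continuous_of_dominated (bound := fun x => ∑ i, C * |g x i|) (fun t => ?_) (fun t => ?_)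
      (integrable_finsetSum _ fun i _ => (hgi i).abs.const_mul C) ?_
    · exact Finset.aestronglyMeasurable_fun_sum _ fun i _ =>
        (slice_cont (hu i) t).aestronglyMeasurable.mul (hgi i).aestronglyMeasurable
    · refine Eventually.of_forall fun x => ?_
      refine (norm_sum_le _ _).trans (Finset.sum_le_sum fun i _ => ?_)
      rw [norm_mul, Real.norm_eq_abs, Real.norm_eq_abs]
      exact mul_le_mul_of_nonneg_right (hC i _) (abs_nonneg _)
    · refine Eventually.of_forall fun x => ?_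
      refine continuous_finsetSum _ fun i _ => Continuous.mul ?_ continuous_const
      exact (hu i).comp (continuous_id.prodMk continuous_const)

/-- a solution with initial velocity zero and viscosity `1`, before scaling -/
structure Raw (Ω : Set E3) (T : ℝ) (K₀ : Set X) (b : ℝ) (r : E3 → ℝ) (f : Fin 3 → X → ℝ)
    (R : X → ℝ) (u : Fin 3 → X → ℝ) (x : Fin 3 → Fin 3 → X → ℝ) : Prop where
  rc : Continuous r
  Rc : Continuous R
  rb : ∀ y, |r y - 1| ≤ b
  Rb : ∀ z, |R z - 1| ≤ b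
  Rr : ∀ z ∈ Cyl Ω T, z.2 ∉ Prod.snd '' K₀ → R z = r z.2
  R0 : ∀ y, R (0, y) = r y
  uc : ∀ i, Continuous (u i)
  xc : ∀ i j, Continuous (x i j)
  uz : ∀ i z, z ∉ K₀ → u i z = 0
  xz : ∀ i j z, z ∉ K₀ → x i j z = 0
  ub : ∃ C, ∀ i z, |u i z| ≤ C
  H : ∀ t, InH Ω (fun y => vec fun i => u i (t, y))
  V : ∀ t, InV Ω (fun y => vec fun i => u i (t, y)) (fun y i j => x i j (t, y))
  tr : Transport Ω T (fun t y => 1 / R (t, y)) (fun t y => vec fun i => u i (t, y))
  mo : ∀ ρ₀ : E3 → ℝ, Momentum Ω T (fun _ => 1) ρ₀ 0 (fun t y => vec fun i => f i (t, y))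
    (fun t y => 1 / R (t, y)) (fun t y => vec fun i => u i (t, y)) (fun t y i j => x i j (t, y))
    0 (fun _ _ _ _ => 0)

lemma pos_of_b {a b : ℝ} (hb : b ≤ 1 / 2) (h : |a - 1| ≤ b) : 0 < a := by
  have := (abs_le.1 h).1
  linarith

lemma div_b {a b c : ℝ} (hc : 0 < c) (hb : b ≤ 1 / 2) (h : |a - 1| ≤ b) :
    c / 2 ≤ c / a ∧ c / a ≤ 2 * c := by
  have h0 := pos_of_b hb h
  have h1 := abs_le.1 h
  constructor
  · exact div_le_div_of_nonneg_left hc.le h0 (by linarith [h1.2])
  · rw [div_le_iff₀ h0]; nlinarith [h1.1]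

section

variable {Ω : Set E3} {T b c l m M : ℝ} {K₀ : Set X} {r : E3 → ℝ} {f : Fin 3 → X → ℝ}
  {R : X → ℝ} {u : Fin 3 → X → ℝ} {x : Fin 3 → Fin 3 → X → ℝ}

lemma test_Th (hl : 0 < l) {φ : X → E3} (h : Test Ω T φ) :
    Test Ω (l * T) (fun z => φ (Th l⁻¹ z)) := by
  refine ⟨h.1.comp (Th_smooth _), h.2.1.comp_homeomorph (ThH hl).symm, ?_⟩
  have e : (fun z => φ (Th l⁻¹ z)) = φ ∘ (ThH hl).symm := rfl
  rw [e, tsupport_comp_eq_preimage]
  intro z hz
  have h1 := h.2.2 hz
  refine ⟨?_, h1.2⟩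
  have h2 : l⁻¹ * z.1 < T := h1.1
  rw [inv_mul_lt_iff₀ hl] at h2
  exact h2

lemma Raw.transport (hl : 0 < l) (B : Raw Ω (l * T) K₀ b r f R u x) :
    Transport Ω T (fun t y => c / R (Th l (t, y))) (fun t y => vec fun i => l * u i (Th l (t, y)))
      := by
  intro ψ hψ hc hsub
  set ψ' : X → ℝ := fun z => ψ (Th l⁻¹ z) with hψ'
  have hs' : ContDiff ℝ ∞ ψ' := hψ.comp (Th_smooth _)
  have hc' : HasCompactSupport ψ' := hc.comp_homeomorph (ThH hl).symm
  have hsub' : tsupport ψ' ⊆ Cyl Ω (l * T) := by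
    have e : ψ' = ψ ∘ (ThH hl).symm := rfl
    rw [e, tsupport_comp_eq_preimage]
    intro z hz
    have h1 : Th l⁻¹ z ∈ Cyl Ω T := hsub hz
    rw [← preim_cyl hl, mem_preimage, Th_inv hl] at h1
    exact h1
  have h1 := B.tr ψ' hs' hc' hsub'
  have e0 : ψ = fun z => ψ' (Th l z) := by
    funext z
    simp only [hψ', inv_Th hl]
  have e1 : ∀ z, dt ψ z = l * dt ψ' (Th l z) := fun z => by
    conv_lhs => rw [e0]
    exact Dt_Th hs' l z
  have e2 : ∀ j z, dx j ψ z = dx j ψ' (Th l z) := fun j z => by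
    conv_lhs => rw [e0]
    exact Dx_Th hs' l j z
  have e3 : ∀ z : X, c / R (Th l (z.1, z.2)) *
      (dt ψ z + ∑ j, (vec fun i => l * u i (Th l (z.1, z.2))) j * dx j ψ z) =
      (c * l) * (fun z => 1 / R (z.1, z.2) *
        (dt ψ' z + ∑ j, (vec fun i => u i (z.1, z.2)) j * dx j ψ' z)) (Th l z) := by
    intro z
    simp only [vec_apply, e1, e2]
    change c / R (Th l z) * (l * dt ψ' (Th l z) + ∑ j, l * u j (Th l z) * dx j ψ' (Th l z)) =
      c * l * (1 / R (Th l z) * (dt ψ' (Th l z) + ∑ j, u j (Th l z) * dx j ψ' (Th l z)))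
    have e4 : ∑ j, l * u j (Th l z) * dx j ψ' (Th l z) =
        l * ∑ j, u j (Th l z) * dx j ψ' (Th l z) := by
      rw [Finset.mul_sum]
      exact Finset.sum_congr rfl fun j _ => by ring
    rw [e4]
    ring
  have h3 : ∫ z in Cyl Ω T, c / R (Th l (z.1, z.2)) *
      (dt ψ z + ∑ j, (vec fun i => l * u i (Th l (z.1, z.2))) j * dx j ψ z) =
      c * l * l⁻¹ * ∫ z in Cyl Ω (l * T), 1 / R (z.1, z.2) *
        (dt ψ' z + ∑ j, (vec fun i => u i (z.1, z.2)) j * dx j ψ' z) := int_scale hl e3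
  have h2 : ∫ z in Cyl Ω (l * T), 1 / R (z.1, z.2) *
      (dt ψ' z + ∑ j, (vec fun i => u i (z.1, z.2)) j * dx j ψ' z) = 0 := h1
  rw [h2, mul_zero] at h3
  exact h3

lemma Raw.momentum (hl : 0 < l) (B : Raw Ω (l * T) K₀ b r f R u x) (ρ₀ : E3 → ℝ) :
    Momentum Ω T (fun _ => c * l) ρ₀ 0 (fun t y => vec fun i => l ^ 2 * f i (Th l (t, y)))
    (fun t y => c / R (Th l (t, y))) (fun t y => vec fun i => l * u i (Th l (t, y)))
    (fun t y i j => l * x i j (Th l (t, y))) 0 (fun _ _ _ _ => 0) := by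
  intro φ hφ hdiv
  set φ' : X → E3 := fun z => φ (Th l⁻¹ z) with hφ'
  have ht' : Test Ω (l * T) φ' := test_Th hl hφ
  have hs' : ∀ i, ContDiff ℝ ∞ fun y => φ' y i := test_smooth ht'
  have e0 : φ = fun z => φ' (Th l z) := by
    funext z
    simp only [hφ', inv_Th hl]
  have e1 : ∀ (i : Fin 3) z, dt (fun y => φ y i) z = l * dt (fun y => φ' y i) (Th l z) :=
    fun i z => by
      have : (fun y => φ y i) = fun y => (fun y => φ' y i) (Th l y) := by
        rw [e0]
      rw [this]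
      exact Dt_Th (hs' i) l z
  have e2 : ∀ (i j : Fin 3) z, dx j (fun y => φ y i) z = dx j (fun y => φ' y i) (Th l z) :=
    fun i j z => by
      have : (fun y => φ y i) = fun y => (fun y => φ' y i) (Th l y) := by
        rw [e0]
      rw [this]
      exact Dx_Th (hs' i) l j z
  have e3 : ∀ (i : Fin 3) z, φ z i = φ' (Th l z) i := fun i z => by
    have := congrFun e0 z
    rw [this]
  have hdiv' : ∀ z ∈ Ico 0 (l * T) ×ˢ Ω, ∑ i, dx i (fun y => φ' y i) z = 0 := by
    intro z hz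
    have h1 := hdiv (Th l⁻¹ z) ⟨⟨?_, ?_⟩, hz.2⟩
    · simp only [e2, Th_inv hl] at h1
      exact h1
    · exact mul_nonneg (inv_pos.2 hl).le hz.1.1
    · change l⁻¹ * z.1 < T
      rw [inv_mul_lt_iff₀ hl]
      exact hz.1.2
  have hm := B.mo ρ₀ φ' ht' hdiv'
  have T1 : ∫ z in Cyl Ω T, c / R (Th l (z.1, z.2)) *
        ∑ i, (vec fun i => l * u i (Th l (z.1, z.2))) i * dt (fun y => φ y i) z
      = (c * l ^ 2 * l⁻¹) * ∫ z in Cyl Ω (l * T), 1 / R (z.1, z.2) *
          ∑ i, (vec fun i => u i (z.1, z.2)) i * dt (fun y => φ' y i) z := by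
    have e4 : ∀ z : X, c / R (Th l (z.1, z.2)) *
        ∑ i, (vec fun i => l * u i (Th l (z.1, z.2))) i * dt (fun y => φ y i) z =
        (c * l ^ 2) * (fun z => 1 / R (z.1, z.2) *
          ∑ i, (vec fun i => u i (z.1, z.2)) i * dt (fun y => φ' y i) z) (Th l z) := by
      intro z
      simp only [vec_apply, e1]
      change c / R (Th l z) * ∑ i, l * u i (Th l z) * (l * dt (fun y => φ' y i) (Th l z)) =
        c * l ^ 2 * (1 / R (Th l z) * ∑ i, u i (Th l z) * dt (fun y => φ' y i) (Th l z))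
      rw [Finset.mul_sum, Finset.mul_sum, Finset.mul_sum]
      exact Finset.sum_congr rfl fun i _ => by ring
    exact int_scale hl e4
  have T3 : ∫ z in Cyl Ω T, c / R (Th l (z.1, z.2)) *
        ∑ i, ∑ j, (vec fun i => l * u i (Th l (z.1, z.2))) i *
          (vec fun i => l * u i (Th l (z.1, z.2))) j * dx j (fun y => φ y i) z
      = (c * l ^ 2 * l⁻¹) * ∫ z in Cyl Ω (l * T), 1 / R (z.1, z.2) *
          ∑ i, ∑ j, (vec fun i => u i (z.1, z.2)) i *
          (vec fun i => u i (z.1, z.2)) j * dx j (fun y => φ' y i) z := by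
    have e4 : ∀ z : X, c / R (Th l (z.1, z.2)) *
        ∑ i, ∑ j, (vec fun i => l * u i (Th l (z.1, z.2))) i *
          (vec fun i => l * u i (Th l (z.1, z.2))) j * dx j (fun y => φ y i) z =
        (c * l ^ 2) * (fun z => 1 / R (z.1, z.2) *
          ∑ i, ∑ j, (vec fun i => u i (z.1, z.2)) i *
          (vec fun i => u i (z.1, z.2)) j * dx j (fun y => φ' y i) z) (Th l z) := by
      intro z
      simp only [vec_apply, e2]
      change c / R (Th l z) * ∑ i, ∑ j, l * u i (Th l z) * (l * u j (Th l z)) *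
          dx j (fun y => φ' y i) (Th l z) =
        c * l ^ 2 * (1 / R (Th l z) * ∑ i, ∑ j, u i (Th l z) * u j (Th l z) *
          dx j (fun y => φ' y i) (Th l z))
      rw [Finset.mul_sum, Finset.mul_sum, Finset.mul_sum]
      refine Finset.sum_congr rfl fun i _ => ?_
      rw [Finset.mul_sum, Finset.mul_sum, Finset.mul_sum]
      exact Finset.sum_congr rfl fun j _ => by ring
    exact int_scale hl e4
  have T4 : ∫ z in Cyl Ω T, c * l * ∑ i, ∑ j, (l * x i j (Th l (z.1, z.2)) +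
        l * x j i (Th l (z.1, z.2))) * dx j (fun y => φ y i) z
      = (c * l ^ 2 * l⁻¹) * ∫ z in Cyl Ω (l * T), (1:ℝ) *
          ∑ i, ∑ j, (x i j (z.1, z.2) + x j i (z.1, z.2)) * dx j (fun y => φ' y i) z := by
    have e4 : ∀ z : X, c * l * ∑ i, ∑ j, (l * x i j (Th l (z.1, z.2)) +
        l * x j i (Th l (z.1, z.2))) * dx j (fun y => φ y i) z =
        (c * l ^ 2) * (fun z => (1:ℝ) *
          ∑ i, ∑ j, (x i j (z.1, z.2) + x j i (z.1, z.2)) * dx j (fun y => φ' y i) z) (Th l z) := by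
      intro z
      simp only [e2]
      change c * l * ∑ i, ∑ j, (l * x i j (Th l z) + l * x j i (Th l z)) *
          dx j (fun y => φ' y i) (Th l z) =
        c * l ^ 2 * (1 * ∑ i, ∑ j, (x i j (Th l z) + x j i (Th l z)) *
          dx j (fun y => φ' y i) (Th l z))
      rw [Finset.mul_sum, Finset.mul_sum, Finset.mul_sum]
      refine Finset.sum_congr rfl fun i _ => ?_
      rw [Finset.mul_sum, Finset.mul_sum, Finset.mul_sum]
      exact Finset.sum_congr rfl fun j _ => by ring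
    exact int_scale hl e4
  have T5 : ∫ z in Cyl Ω T, c / R (Th l (z.1, z.2)) *
        ∑ i, (vec fun i => l ^ 2 * f i (Th l (z.1, z.2))) i * φ z i
      = (c * l ^ 2 * l⁻¹) * ∫ z in Cyl Ω (l * T), 1 / R (z.1, z.2) *
          ∑ i, (vec fun i => f i (z.1, z.2)) i * φ' z i := by
    have e4 : ∀ z : X, c / R (Th l (z.1, z.2)) *
        ∑ i, (vec fun i => l ^ 2 * f i (Th l (z.1, z.2))) i * φ z i =
        (c * l ^ 2) * (fun z => 1 / R (z.1, z.2) *
          ∑ i, (vec fun i => f i (z.1, z.2)) i * φ' z i) (Th l z) := by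
      intro z
      simp only [vec_apply, e3]
      change c / R (Th l z) * ∑ i, l ^ 2 * f i (Th l z) * φ' (Th l z) i =
        c * l ^ 2 * (1 / R (Th l z) * ∑ i, f i (Th l z) * φ' (Th l z) i)
      rw [Finset.mul_sum, Finset.mul_sum, Finset.mul_sum]
      exact Finset.sum_congr rfl fun i _ => by ring
    exact int_scale hl e4
  have T00 : ∀ (ρ : E3 → ℝ) (φ : X → E3),
      ∫ y in Ω, ρ y * ∑ i, (0 : E3 → E3) y i * φ (0, y) i = 0 := fun ρ φ => by simp
  have e5 : ∀ (T : ℝ) (φ : X → E3), ∫ z in Cyl Ω T, ∑ i, crossProduct (curl (fun _ _ => (0:ℝ)))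
      ((0 : ℝ → E3 → E3) z.1 z.2).ofLp i * φ z i = 0 := fun T φ => by
    simp [curl_zero]
  rw [T00, e5] at hm
  rw [T00, e5, T1, T3, T4, T5]
  linear_combination (c * l ^ 2 * l⁻¹) * hm

theorem Raw.base (hbd : Bornology.IsBounded Ω) (hl : 0 < l) (hc : 0 < c)
    (hb : b ≤ 1 / 2) (hK : IsCompact K₀) (hm : m ≤ c / 2) (hM : 2 * c ≤ M)
    (B : Raw Ω (l * T) K₀ b r f R u x) :
    Base Ω T (c * l) (Th l ⁻¹' K₀) m M (fun y => c / r y) (fun i z => l ^ 2 * f i (Th l z))
      (fun z => c / R (Th l z)) (fun i z => l * u i (Th l z))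
      (fun i j z => l * x i j (Th l z)) := by
  have hRp : ∀ z, 0 < R z := fun z => pos_of_b hb (B.Rb z)
  have hrp : ∀ y, 0 < r y := fun y => pos_of_b hb (B.rb y)
  have hK' : IsCompact (Th l ⁻¹' K₀) := (ThH hl).isCompact_preimage.2 hK
  have huc : ∀ i, Continuous fun z => l * u i (Th l z) := fun i =>
    continuous_const.mul ((B.uc i).comp (Th_cont l))
  have hxc : ∀ i j, Continuous fun z => l * x i j (Th l z) := fun i j =>
    continuous_const.mul ((B.xc i j).comp (Th_cont l))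
  have huz : ∀ i z, z ∉ Th l ⁻¹' K₀ → l * u i (Th l z) = 0 := fun i z hz => by
    rw [B.uz i _ hz, mul_zero]
  have hxz : ∀ i j z, z ∉ Th l ⁻¹' K₀ → l * x i j (Th l z) = 0 := fun i j z hz => by
    rw [B.xz i j _ hz, mul_zero]
  have evec : ∀ t : ℝ, (fun y => vec fun i => l * u i (Th l (t, y))) =
      fun y => l • vec fun i => u i (l * t, y) := by
    intro t
    funext y
    ext i
    simp [Th]
  obtain ⟨C, hC⟩ := B.ub
  refine ⟨continuous_const.div B.rc fun y => (hrp y).ne',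
    continuous_const.div (B.Rc.comp (Th_cont l)) fun z => (hRp _).ne',
    fun z => hm.trans (div_b hc hb (B.Rb _)).1, fun z => (div_b hc hb (B.Rb _)).2.trans hM,
    fun z hz hP => ?_, fun y => ?_, huc, hxc, huz, hxz, ?_, ⟨?_, fun i j => ?_, ?_⟩,
    B.transport hl, fun ρ₀ => B.momentum hl ρ₀⟩
  · have h1 : Th l z ∈ Cyl Ω (l * T) := by
      rw [← preim_cyl hl] at hz
      exact hz
    have h2 : R (Th l z) = r z.2 := B.Rr _ h1 fun ⟨y, hy, he⟩ => hP ⟨Th l⁻¹ y, by
      rw [mem_preimage, Th_inv hl]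
      exact hy, he⟩
    change c / R (Th l z) = c / r z.2
    rw [h2]
  · have : Th l (0, y) = (0, y) := by simp [Th]
    rw [this, B.R0]
  · refine inCw_of (C := l * C) hbd huc (fun i z => ?_) fun t => ?_
    · rw [abs_mul, abs_of_pos hl]
      exact mul_le_mul_of_nonneg_left (hC i _) hl.le
    · rw [evec t]
      exact InH.smul (B.H (l * t)) l
  · have hvc : Continuous fun z : X => vec fun i => l * u i (Th l z) := by
      have := contDiff_vec (n := 0) (f := fun i z => l * u i (Th l z))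
        fun i => contDiff_zero.2 (huc i)
      exact this.continuous
    refine MemLp.restrict _ (hvc.memLp_of_hasCompactSupport
      (HasCompactSupport.intro hK' fun z hz => ?_))
    ext i
    exact huz i z hz
  · exact MemLp.restrict _ ((hxc i j).memLp_of_hasCompactSupport
      (HasCompactSupport.intro hK' fun z hz => hxz i j z hz))
  · refine Eventually.of_forall fun t => ?_
    rw [evec t]
    exact InV.smul (B.V (l * t)) hl

end

end

end Pool.Agent.J6H60.MH
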