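import Pool.Agent.J6H60.MH.Ibp

/-!
# The function spaces: sums, and smooth background flows
-/

set_option autoImplicit false

open scoped ContDiff ENNReal
open Set MeasureTheory Filter Topology Pool.Agent.H729R2 Pool.Agent.H729R2.MHD

namespace Pool.Agent.J6H60.MH

noncomputable section

section add

variable {Ω : Set E3} {T : ℝ}

lemma memLp_bdd (hΩ : IsOpen Ω) (hb : Bornology.IsBounded Ω) {g : E3 → ℝ} (hg : Continuous g) :
    MemLp g 2 (volume.restrict Ω) := by
  have hfin := finite_vol hb
  obtain ⟨C, hC⟩ := hb.isCompact_closure.exists_bound_of_continuousOn (f := g) hg.continuousOn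
  exact MemLp.of_bound hg.aestronglyMeasurable C ((ae_restrict_iff' hΩ.measurableSet).2
    (Eventually.of_forall fun x hx => hC x (subset_closure hx)))

lemma comp_memLp {v : E3 → E3} {μ : Measure E3} (hv : MemLp v 2 μ) (i : Fin 3) :
    MemLp (fun x => v x i) 2 μ :=
  (EuclideanSpace.proj i : E3 →L[ℝ] ℝ).comp_memLp' hv

lemma int_prod {v h : E3 → E3} {μ : Measure E3} (hv : MemLp v 2 μ) (hh : MemLp h 2 μ) :
    Integrable (fun x => ∑ i, v x i * h x i) μ :=
  integrable_finsetSum _ fun i _ => (comp_memLp hv i).integrable_mul (comp_memLp hh i)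

lemma InH.add (hΩ : IsOpen Ω) (hb : Bornology.IsBounded Ω) {v v' : E3 → E3} (h : InH Ω v)
    (h' : InH Ω v') : InH Ω (fun x => v x + v' x) := by
  refine ⟨h.mem.add h'.mem, fun ψ hψ => ?_⟩
  have hi : ∀ {u : E3 → E3}, MemLp u 2 (volume.restrict Ω) →
      Integrable (fun x => ∑ i, u x i * pdx i ψ x) (volume.restrict Ω) := fun hu =>
    integrable_finsetSum _ fun i _ =>
      (comp_memLp hu i).integrable_mul (memLp_bdd hΩ hb (pdx_cont hψ i))
  have e : ∀ x, ∑ i, (v x + v' x) i * pdx i ψ x =
      ∑ i, v x i * pdx i ψ x + ∑ i, v' x i * pdx i ψ x := by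
    intro x
    rw [← Finset.sum_add_distrib]
    exact Finset.sum_congr rfl fun i _ => by simp [add_mul]
  simp only [e]
  rw [integral_add (hi h.mem) (hi h'.mem), h.orth ψ hψ, h'.orth ψ hψ, add_zero]

lemma InCw.add (hΩ : IsOpen Ω) (hb : Bornology.IsBounded Ω) {v v' : ℝ → E3 → E3}
    (h : InCw Ω T v) (h' : InCw Ω T v') : InCw Ω T (fun t x => v t x + v' t x) := by
  refine ⟨h.meas.add h'.meas, fun t ht => InH.add hΩ hb (h.inH t ht) (h'.inH t ht), ?_, ?_⟩
  · obtain ⟨C, hC, hCb⟩ := h.bdd
    obtain ⟨C', hC', hCb'⟩ := h'.bdd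
    refine ⟨C + C', ENNReal.add_ne_top.2 ⟨hC, hC'⟩, fun t ht => ?_⟩
    exact (eLpNorm_add_le (h.inH t ht).mem.1 (h'.inH t ht).mem.1 (by norm_num)).trans
      (add_le_add (hCb t ht) (hCb' t ht))
  · intro g hg
    have h1 := (h.cont g hg).add (h'.cont g hg)
    refine h1.congr fun t ht => ?_
    have hi := int_prod (h.inH t ht).mem hg.mem
    have hi' := int_prod (h'.inH t ht).mem hg.mem
    have e : ∀ x, ∑ i, (v t x + v' t x) i * g x i =
        ∑ i, v t x i * g x i + ∑ i, v' t x i * g x i := by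
      intro x
      rw [← Finset.sum_add_distrib]
      exact Finset.sum_congr rfl fun i _ => by simp [add_mul]
    simp only [e]
    exact integral_add hi hi'

lemma InH1.add (hΩ : IsOpen Ω) (hb : Bornology.IsBounded Ω) {v v' : E3 → E3}
    {J J' : E3 → Fin 3 → Fin 3 → ℝ} (h : InH1 Ω v J) (h' : InH1 Ω v' J') :
    InH1 Ω (fun x => v x + v' x) (fun x i j => J x i j + J' x i j) := by
  refine ⟨h.mem.add h'.mem, fun i j => (h.memJ i j).add (h'.memJ i j), fun i j ψ hψ hc hs => ?_⟩
  have m1 := memLp_bdd hΩ hb (pdx_cont hψ j)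
  have m2 := memLp_bdd hΩ hb hψ.continuous
  have e1 : ∀ x, (v x + v' x) i * pdx j ψ x = v x i * pdx j ψ x + v' x i * pdx j ψ x :=
    fun x => by simp [add_mul]
  have e2 : ∀ x, (J x i j + J' x i j) * ψ x = J x i j * ψ x + J' x i j * ψ x :=
    fun x => by rw [add_mul]
  simp only [e1, e2]
  have k1 : Integrable (fun x => v x i * pdx j ψ x) (volume.restrict Ω) :=
    (comp_memLp h.mem i).integrable_mul m1
  have k2 : Integrable (fun x => v' x i * pdx j ψ x) (volume.restrict Ω) :=
    (comp_memLp h'.mem i).integrable_mul m1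
  have k3 : Integrable (fun x => J x i j * ψ x) (volume.restrict Ω) :=
    (h.memJ i j).integrable_mul m2
  have k4 : Integrable (fun x => J' x i j * ψ x) (volume.restrict Ω) :=
    (h'.memJ i j).integrable_mul m2
  rw [integral_add k1 k2, integral_add k3 k4,
    h.weak i j ψ hψ hc hs, h'.weak i j ψ hψ hc hs]
  ring

lemma InV.add (hΩ : IsOpen Ω) (hb : Bornology.IsBounded Ω) {v v' : E3 → E3}
    {J J' : E3 → Fin 3 → Fin 3 → ℝ} (h : InV Ω v J) (h' : InV Ω v' J') :
    InV Ω (fun x => v x + v' x) (fun x i j => J x i j + J' x i j) := by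
  refine ⟨InH1.add hΩ hb h.h1 h'.h1, fun ε hε => ?_, ?_⟩
  · have hε2 : 0 < ε / 2 := ENNReal.div_pos hε.ne' (by norm_num)
    obtain ⟨φ, s, c, t, n, m⟩ := h.bdry _ hε2
    obtain ⟨φ', s', c', t', n', m'⟩ := h'.bdry _ hε2
    refine ⟨fun x => φ x + φ' x, s.add s', c.add c',
      (tsupport_add φ φ').trans (union_subset t t'), ?_, fun i j => ?_⟩
    · have e : (fun x => φ x + φ' x - (v x + v' x)) =
          (fun x => φ x - v x) + fun x => φ' x - v' x := by
        funext x
        simp only [Pi.add_apply]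
        abel
      rw [e]
      refine (eLpNorm_add_le (s.continuous.aestronglyMeasurable.sub h.h1.mem.1)
        (s'.continuous.aestronglyMeasurable.sub h'.h1.mem.1) (by norm_num)).trans ?_
      exact (add_le_add n n').trans (le_of_eq (ENNReal.add_halves ε))
    · have si : ContDiff ℝ ∞ fun y => φ y i := contDiff_euclidean.1 s i
      have si' : ContDiff ℝ ∞ fun y => φ' y i := contDiff_euclidean.1 s' i
      have e : (fun x => pdx j (fun y => (φ y + φ' y) i) x - (J x i j + J' x i j)) =
          (fun x => pdx j (fun y => φ y i) x - J x i j) +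
            fun x => pdx j (fun y => φ' y i) x - J' x i j := by
        funext x
        have e1 : (fun y => (φ y + φ' y) i) = fun y => φ y i + φ' y i := rfl
        simp only [Pi.add_apply, e1, pdx]
        rw [fderiv_fun_add (si.differentiable (by simp) x) (si'.differentiable (by simp) x),
          add_apply]
        ring
      rw [e]
      refine (eLpNorm_add_le ((pdx_cont si j).aestronglyMeasurable.sub (h.h1.memJ i j).1)
        ((pdx_cont si' j).aestronglyMeasurable.sub (h'.h1.memJ i j).1) (by norm_num)).trans ?_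
      exact (add_le_add (m i j) (m' i j)).trans (le_of_eq (ENNReal.add_halves ε))
  · filter_upwards [h.div, h'.div] with x hx hx'
    rw [Finset.sum_add_distrib, hx, hx', add_zero]

lemma InL2V.add (hΩ : IsOpen Ω) (hb : Bornology.IsBounded Ω) {v v' : ℝ → E3 → E3}
    {J J' : ℝ → E3 → Fin 3 → Fin 3 → ℝ} (h : InL2 (InV Ω) Ω T v J)
    (h' : InL2 (InV Ω) Ω T v' J') :
    InL2 (InV Ω) Ω T (fun t x => v t x + v' t x) (fun t x i j => J t x i j + J' t x i j) := by
  refine ⟨h.mem.add h'.mem, fun i j => (h.memJ i j).add (h'.memJ i j), ?_⟩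
  filter_upwards [h.space, h'.space] with t ht ht'
  exact InV.add hΩ hb ht ht'

end add

namespace Bg

variable {K Ω : Set E3} {T : ℝ} {w : Fin 3 → X → ℝ} (h : Bg K w)
include h

lemma bdd : ∃ C : ℝ, 0 ≤ C ∧ (∀ i z, |w i z| ≤ C) ∧ ∀ i j z, |D (ev j) (w i) z| ≤ C := by
  have h1 : ∀ i, ∃ C, ∀ z, ‖w i z‖ ≤ C := fun i =>
    (h.s i).continuous.bounded_above_of_compact_support (h.cs i)
  have h2 : ∀ i j, ∃ C, ∀ z, ‖D (ev j) (w i) z‖ ≤ C := fun i j =>
    (D_smooth (h.s i) _).continuous.bounded_above_of_compact_support (D_hcs (h.cs i) _)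
  choose C hC using h1
  choose C' hC' using h2
  refine ⟨∑ i, |C i| + ∑ i, ∑ j, |C' i j|, by positivity, fun i z => ?_, fun i j z => ?_⟩
  · have e1 : |C i| ≤ ∑ i, |C i| :=
      Finset.single_le_sum (f := fun i => |C i|) (fun i _ => abs_nonneg _) (Finset.mem_univ i)
    have e2 : 0 ≤ ∑ i, ∑ j, |C' i j| :=
      Finset.sum_nonneg fun i _ => Finset.sum_nonneg fun j _ => abs_nonneg _
    have := (hC i z).trans (le_abs_self _)
    rw [Real.norm_eq_abs] at this
    linarith
  · have e1 : |C' i j| ≤ ∑ j, |C' i j| :=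
      Finset.single_le_sum (f := fun j => |C' i j|) (fun i _ => abs_nonneg _) (Finset.mem_univ j)
    have e2 : ∑ j, |C' i j| ≤ ∑ i, ∑ j, |C' i j| :=
      Finset.single_le_sum (f := fun i => ∑ j, |C' i j|)
        (fun i _ => Finset.sum_nonneg fun j _ => abs_nonneg _) (Finset.mem_univ i)
    have e3 : 0 ≤ ∑ i, |C i| := Finset.sum_nonneg fun i _ => abs_nonneg _
    have := (hC' i j z).trans (le_abs_self _)
    rw [Real.norm_eq_abs] at this
    linarith

lemma vecs : ContDiff ℝ ∞ fun z : X => vec fun i => w i z := contDiff_vec h.s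

lemma sliceK (F : X → ℝ) (hF : ∀ z, z.2 ∉ K → F z = 0) (t : ℝ) :
    HasCompactSupport fun x : E3 => F (t, x) :=
  HasCompactSupport.intro h.Kc fun x hx => hF (t, x) hx

lemma orth (hKΩ : K ⊆ Ω) (t : ℝ) {ψ : E3 → ℝ} (hψ : ContDiff ℝ ∞ ψ) (i j : Fin 3) :
    ∫ x in Ω, w i (t, x) * pdx j ψ x = - ∫ x in Ω, D (ev j) (w i) (t, x) * ψ x := by
  rw [setIntegral_eq_integral_of_forall_compl_eq_zero (fun x hx => by
      rw [h.zero i (z := (t, x)) fun h' => hx (hKΩ h'), zero_mul]),
    setIntegral_eq_integral_of_forall_compl_eq_zero (fun x hx => by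
      rw [h.Dzero _ i (z := (t, x)) fun h' => hx (hKΩ h'), zero_mul]),
    ibp3 (slice_smooth (h.s i) t) hψ (Or.inl (h.sliceK _ (fun z hz => h.zero i hz) t))]
  simp only [pdx_slice (h.s i)]

lemma slice_mem (hb : Bornology.IsBounded Ω) (t : ℝ) :
    MemLp (fun x => vec fun i => w i (t, x)) 2 (volume.restrict Ω) := by
  have hfin := finite_vol hb
  obtain ⟨C, hC0, c1, c2⟩ := h.bdd
  refine MemLp.of_bound ?_ (2 * C) (Eventually.of_forall fun x => norm_vec_le fun i => c1 i _)
  exact (h.vecs.continuous.comp (continuous_const.prodMk continuous_id)).aestronglyMeasurable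

lemma inH (hb : Bornology.IsBounded Ω) (hKΩ : K ⊆ Ω) (t : ℝ) :
    InH Ω (fun x => vec fun i => w i (t, x)) := by
  refine ⟨h.slice_mem hb t, fun ψ hψ => ?_⟩
  simp only [vec_apply]
  have hint : ∀ i, Integrable (fun x => w i (t, x) * pdx i ψ x) (volume.restrict Ω) := by
    intro i
    have : Continuous fun x : E3 => w i (t, x) * pdx i ψ x :=
      (slice_cont (h.s i).continuous t).mul (pdx_cont hψ i)
    exact (this.integrable_of_hasCompactSupport
      (h.sliceK _ (fun z hz => h.zero i hz) t).mul_right).restrict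
  have hint2 : ∀ i, Integrable (fun x => D (ev i) (w i) (t, x) * ψ x) (volume.restrict Ω) := by
    intro i
    have : Continuous fun x : E3 => D (ev i) (w i) (t, x) * ψ x :=
      (slice_cont (D_smooth (h.s i) _).continuous t).mul hψ.continuous
    exact (this.integrable_of_hasCompactSupport
      (h.sliceK _ (fun z hz => h.Dzero _ i hz) t).mul_right).restrict
  rw [integral_finsetSum _ fun i _ => hint i]
  simp only [h.orth hKΩ t hψ, Finset.sum_neg_distrib]
  rw [← integral_finsetSum _ fun i _ => hint2 i]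
  have : ∀ x, ∑ i, D (ev i) (w i) (t, x) * ψ x = 0 := fun x => by
    rw [← Finset.sum_mul, h.div, zero_mul]
  simp only [this, integral_zero, neg_zero]

lemma inCw (hb : Bornology.IsBounded Ω) (hKΩ : K ⊆ Ω) :
    InCw Ω T (fun t x => vec fun i => w i (t, x)) := by
  have hfin := finite_vol hb
  obtain ⟨C, hC0, c1, c2⟩ := h.bdd
  refine ⟨h.vecs.continuous.aestronglyMeasurable, fun t _ => h.inH hb hKΩ t, ?_, ?_⟩
  · refine ⟨(volume.restrict Ω) univ ^ (2:ℝ≥0∞).toReal⁻¹ * ENNReal.ofReal (2 * C),
      ENNReal.mul_ne_top (ENNReal.rpow_ne_top_of_nonneg (by positivity) (measure_ne_top _ _))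
        ENNReal.ofReal_ne_top, fun t _ => ?_⟩
    exact eLpNorm_le_of_ae_bound (Eventually.of_forall fun x => norm_vec_le fun i => c1 i _)
  · intro g hg
    refine Continuous.continuousOn ?_
    simp only [vec_apply]
    have hgi : ∀ i, Integrable (fun x => g x i) (volume.restrict Ω) := by
      intro i
      have h1 : Integrable g (volume.restrict Ω) := hg.mem.integrable (by norm_num)
      exact (EuclideanSpace.proj i : E3 →L[ℝ] ℝ).integrable_comp h1
    refine continuous_of_dominated (bound := fun x => ∑ i, C * |g x i|) (fun t => ?_) (fun t => ?_)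
      (integrable_finsetSum _ fun i _ => (hgi i).abs.const_mul C) ?_
    · exact Finset.aestronglyMeasurable_fun_sum _ fun i _ =>
        (slice_cont (h.s i).continuous t).aestronglyMeasurable.mul (hgi i).aestronglyMeasurable
    · refine Eventually.of_forall fun x => ?_
      refine (norm_sum_le _ _).trans (Finset.sum_le_sum fun i _ => ?_)
      rw [norm_mul, Real.norm_eq_abs, Real.norm_eq_abs]
      exact mul_le_mul_of_nonneg_right (c1 i _) (abs_nonneg _)
    · refine Eventually.of_forall fun x => ?_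
      refine continuous_finsetSum _ fun i _ => Continuous.mul ?_ continuous_const
      exact (h.s i).continuous.comp (continuous_id.prodMk continuous_const)

lemma inV (hb : Bornology.IsBounded Ω) (hKΩ : K ⊆ Ω) (t : ℝ) :
    InV Ω (fun x => vec fun i => w i (t, x)) (fun x i j => D (ev j) (w i) (t, x)) := by
  have hfin := finite_vol hb
  obtain ⟨C, hC0, c1, c2⟩ := h.bdd
  refine ⟨⟨h.slice_mem hb t, fun i j => ?_, fun i j ψ hψ _ _ => h.orth hKΩ t hψ i j⟩,
    fun ε hε => ⟨fun x => vec fun i => w i (t, x), contDiff_vec fun i => slice_smooth (h.s i) t,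
      ?_, ?_, ?_, fun i j => ?_⟩, Eventually.of_forall fun x => h.div _⟩
  · exact MemLp.of_bound (slice_cont (D_smooth (h.s i) _).continuous t).aestronglyMeasurable C
      (Eventually.of_forall fun x => c2 i j _)
  · refine HasCompactSupport.intro h.Kc fun x hx => ?_
    ext i
    exact h.zero i (z := (t, x)) hx
  · refine subset_trans (closure_minimal (fun x hx => ?_) h.Kc.isClosed) hKΩ
    by_contra hcon
    apply hx
    ext i
    exact h.zero i (z := (t, x)) hcon
  · simp
  · have e : (fun x => pdx j (fun y => (vec fun i => w i (t, y)) i) x -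
        D (ev j) (w i) (t, x)) = 0 := by
      funext x
      simp only [vec_apply, pdx_slice (h.s i), sub_self, Pi.zero_apply]
    rw [e, eLpNorm_zero]
    exact zero_le

lemma inL2V (hb : Bornology.IsBounded Ω) (hKΩ : K ⊆ Ω) :
    InL2 (InV Ω) Ω T (fun t x => vec fun i => w i (t, x))
      (fun t x i j => D (ev j) (w i) (t, x)) := by
  refine ⟨?_, fun i j => ?_, Eventually.of_forall fun t => h.inV hb hKΩ t⟩
  · exact MemLp.restrict _ (h.vecs.continuous.memLp_of_hasCompactSupport
      (vec_hasCompactSupport h.cs))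
  · exact MemLp.restrict _ ((D_smooth (h.s i) _).continuous.memLp_of_hasCompactSupport
      (D_hcs (h.cs i) _))

end Bg

end

end Pool.Agent.J6H60.MH
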